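import Pool.Agent.Run7.h781.CC.Defs

/-!
# Congruence closure: basic facts, existence of complete histories
-/

namespace Run7.h781.CC

variable {V : Type}

open LGraph

theorem Cong.mono {G : LGraph V} {r r' : V → V → Prop} (hr : ∀ a b, r a b → r' a b) {u v : V}
    (h : G.Cong r u v) : G.Cong r' u v := ⟨h.1, h.2.imp hr⟩

theorem closure_pairs (G : LGraph V) (R : List (V × V)) {p : V × V} (hp : p ∈ R) :
    G.closure R p.1 p.2 := by
  intro s hs
  exact hs.1 p hp

theorem closure_closed (G : LGraph V) (R : List (V × V)) {u v : V}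
    (h : G.Cong (G.closure R) u v) : G.closure R u v := by
  intro s hs
  exact hs.2 u v (Cong.mono (fun a b hab => hab s hs) h)

theorem closure_le (G : LGraph V) (R : List (V × V)) (s : Setoid V)
    (h1 : ∀ p ∈ R, s p.1 p.2) (h2 : ∀ u v, G.Cong s u v → s u v) : G.closure R ≤ s := by
  intro a b h
  exact h s ⟨h1, h2⟩

theorem hist_le {G : LGraph V} {R : List (V × V)} {f : V → ℕ} {c : ℕ} (h : Hist G R f c) :
    Setoid.ker f ≤ G.closure R := by
  induction h with
  | start f hf =>
    intro a b hab
    have : a = b := hf hab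
    subst this
    exact (G.closure R).refl' a
  | @step f c h S hS g hg ih =>
    apply hg.2
    refine ⟨ih, ?_⟩
    intro p hp
    rcases hS p hp with hj | hj
    · exact closure_pairs G R hj
    · exact closure_closed G R (Cong.mono (fun a b hab => ih hab) hj)

theorem exists_name [Finite V] (s : Setoid V) : ∃ g : V → ℕ, Setoid.ker g = s := by
  obtain ⟨n, ⟨e⟩⟩ := Finite.exists_equiv_fin (Quotient s)
  refine ⟨fun v => (e (Quotient.mk s v)).val, ?_⟩
  ext a b
  constructor
  · intro h
    have h1 : e (Quotient.mk s a) = e (Quotient.mk s b) := Fin.ext h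
    exact Quotient.exact (e.injective h1)
  · intro h
    have : (Quotient.mk s a) = (Quotient.mk s b) := Quotient.sound h
    show (e (Quotient.mk s a)).val = (e (Quotient.mk s b)).val
    rw [this]

theorem exists_hist [Finite V] (G : LGraph V) (R : List (V × V)) :
    ∃ f c, Hist G R f c ∧ Setoid.ker f = G.closure R := by
  classical
  have : Finite (Setoid V) := by
    apply Finite.of_injective (fun s : Setoid V => (fun a b => s a b : V → V → Prop))
    intro s t hst
    ext a b
    exact iff_of_eq (congrFun (congrFun hst a) b)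
  obtain ⟨f0, hf0⟩ := exists_name (⊥ : Setoid V)
  have hinj : Function.Injective f0 := by
    intro a b hab
    have : (Setoid.ker f0) a b := hab
    rw [hf0] at this
    exact this
  have hne : {s : Setoid V | ∃ f c, Hist G R f c ∧ Setoid.ker f = s}.Nonempty :=
    ⟨_, f0, 0, Hist.start f0 hinj, rfl⟩
  obtain ⟨s, hs⟩ := (Set.toFinite {s : Setoid V | ∃ f c, Hist G R f c ∧
    Setoid.ker f = s}).exists_maximal hne
  obtain ⟨f, c, hc, rfl⟩ := hs.prop
  have key : ∀ p : V × V, (p ∈ R ∨ G.Cong (Setoid.ker f) p.1 p.2) → (Setoid.ker f) p.1 p.2 := by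
    intro p hj
    obtain ⟨g, hg⟩ := exists_name
      (sInf {s : Setoid V | Setoid.ker f ≤ s ∧ ∀ q ∈ ({p} : Set (V × V)), s q.1 q.2})
    have hleast : IsLeast {s : Setoid V | Setoid.ker f ≤ s ∧ ∀ q ∈ ({p} : Set (V × V)),
        s q.1 q.2} (Setoid.ker g) := by
      rw [hg]
      refine ⟨⟨le_sInf fun t ht => ht.1, ?_⟩, fun t ht => sInf_le ht⟩
      intro q hq t ht
      exact ht.2 q hq
    have hrun := Hist.step hc {p} (by
      intro q hq
      rw [Set.mem_singleton_iff] at hq
      rw [hq]; exact hj) g hleast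
    have := hs.le_of_ge ⟨g, _, hrun, rfl⟩ hleast.1.1
    exact this (hleast.1.2 p rfl)
  refine ⟨f, c, hc, ?_⟩
  apply le_antisymm (hist_le hc)
  exact closure_le G R _ (fun p hp => key _ (Or.inl hp)) (fun u v h => key (u, v) (Or.inr h))

/-- The partition obtained from `s` by uniting the classes of `u` and `v`. -/
def unite (s : Setoid V) (u v : V) : Setoid V where
  r a b := s a b ∨ (s a u ∧ s v b) ∨ (s a v ∧ s u b)
  iseqv := by
    refine ⟨fun a => Or.inl (s.refl' a), ?_, ?_⟩
    · rintro a b (h | ⟨h, h'⟩ | ⟨h, h'⟩)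
      · exact Or.inl (s.symm' h)
      · exact Or.inr (Or.inr ⟨s.symm' h', s.symm' h⟩)
      · exact Or.inr (Or.inl ⟨s.symm' h', s.symm' h⟩)
    · rintro a b c (h | ⟨h, h'⟩ | ⟨h, h'⟩) (k | ⟨k, k'⟩ | ⟨k, k'⟩)
      · exact Or.inl (s.trans' h k)
      · exact Or.inr (Or.inl ⟨s.trans' h k, k'⟩)
      · exact Or.inr (Or.inr ⟨s.trans' h k, k'⟩)
      · exact Or.inr (Or.inl ⟨h, s.trans' h' k⟩)
      · exact Or.inr (Or.inl ⟨h, k'⟩)
      · exact Or.inl (s.trans' h k')
      · exact Or.inr (Or.inr ⟨h, s.trans' h' k⟩)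
      · exact Or.inl (s.trans' h k')
      · exact Or.inr (Or.inr ⟨h, k'⟩)

theorem le_unite (s : Setoid V) (u v : V) : s ≤ unite s u v := fun _ _ h => Or.inl h

theorem unite_rel (s : Setoid V) (u v : V) : (unite s u v) u v :=
  Or.inr (Or.inl ⟨s.refl' u, s.refl' v⟩)

theorem unite_le {s t : Setoid V} {u v : V} (hst : s ≤ t) (huv : t u v) : unite s u v ≤ t := by
  rintro a b (h | ⟨h, h'⟩ | ⟨h, h'⟩)
  · exact hst h
  · exact t.trans' (hst h) (t.trans' huv (hst h'))
  · exact t.trans' (hst h) (t.trans' (t.symm' huv) (hst h'))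

theorem unite_comm (s : Setoid V) (u v : V) : unite s u v = unite s v u :=
  le_antisymm (unite_le (le_unite s v u) ((unite s v u).symm' (unite_rel s v u)))
    (unite_le (le_unite s u v) ((unite s u v).symm' (unite_rel s u v)))

theorem unite_self {s : Setoid V} {u v : V} (h : s u v) : unite s u v = s :=
  le_antisymm (unite_le le_rfl h) (le_unite s u v)

/-- Unite along a list of pairs. -/
def uniteL (s : Setoid V) (l : List (V × V)) : Setoid V :=
  l.foldl (fun s p => unite s p.1 p.2) s

theorem uniteL_le {s t : Setoid V} {l : List (V × V)} (hst : s ≤ t) (hl : ∀ p ∈ l, t p.1 p.2) :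
    uniteL s l ≤ t := by
  induction l generalizing s with
  | nil => exact hst
  | cons p l ih =>
    exact ih (unite_le hst (hl p (by simp))) (fun q hq => hl q (by simp [hq]))

theorem le_uniteL (s : Setoid V) (l : List (V × V)) : s ≤ uniteL s l := by
  induction l generalizing s with
  | nil => exact le_rfl
  | cons p l ih => exact (le_unite s p.1 p.2).trans (ih _)

theorem uniteL_rel (s : Setoid V) (l : List (V × V)) {p : V × V} (hp : p ∈ l) :
    (uniteL s l) p.1 p.2 := by
  induction l generalizing s with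
  | nil => simp at hp
  | cons q l ih =>
    rcases List.mem_cons.1 hp with rfl | hp
    · exact le_uniteL _ l (unite_rel s p.1 p.2)
    · exact ih _ hp

theorem least_eq [Finite V] {s t : Setoid V} {S : Set (V × V)}
    (h : IsLeast {s' : Setoid V | s ≤ s' ∧ ∀ p ∈ S, s' p.1 p.2} t) :
    ∃ l : List (V × V), (∀ p ∈ l, p ∈ S) ∧ t = uniteL s l := by
  classical
  refine ⟨(Set.toFinite S).toFinset.toList, by simp, ?_⟩
  apply le_antisymm
  · apply h.2
    exact ⟨le_uniteL _ _, fun p hp => uniteL_rel _ _ (by simpa using hp)⟩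
  · exact uniteL_le h.1.1 (fun p hp => h.1.2 p (by simpa using hp))

end Run7.h781.CC
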