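import Mathlib

/-!
# Labelled graphs, congruence closure, and algorithms that keep explicit class names
-/

namespace Run7.h781.CC

/-- A directed graph with labelled vertices; `out v` is the list of the heads of the edges
leaving `v`, in order (repetitions are allowed). -/
structure LGraph (V : Type) where
  /-- labels -/
  lab : V → ℕ
  /-- ordered adjacency lists -/
  out : V → List V

namespace LGraph

variable {V : Type}

/-- `u` and `v` are congruent under the relation `r`. -/
def Cong (G : LGraph V) (r : V → V → Prop) (u v : V) : Prop :=
  G.lab u = G.lab v ∧ List.Forall₂ r (G.out u) (G.out v)

/-- The congruence closure of (the relation given by) the list `R` of pairs: the finest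
equivalence relation which contains `R` and is closed under congruences. -/
def closure (G : LGraph V) (R : List (V × V)) : Setoid V :=
  sInf {s | (∀ p ∈ R, s p.1 p.2) ∧ ∀ u v, G.Cong s u v → s u v}

/-- The signature of `w` for the class names `f`: the label of `w` and the list of the names of
its successors. -/
def sig (G : LGraph V) (f : V → ℕ) (w : V) : ℕ × List ℕ := (G.lab w, (G.out w).map f)

/-- The vertex `w` is pending in the partition `s`: some vertex `w'` with the same label and the
same outdegree is not yet equivalent to `w`, but is equivalent to `w` in the congruence closure. -/
def Pending (G : LGraph V) (R : List (V × V)) (s : Setoid V) (w : V) : Prop :=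
  ∃ w', G.lab w' = G.lab w ∧ (G.out w').length = (G.out w).length ∧
    G.closure R w w' ∧ ¬ s w w'

/-- The number of entries of the signature table which have to be changed when the class names
change from `f` to `g`: the number of different signatures, with respect to `f`, of pending
vertices whose signature changes. -/
noncomputable def updates (G : LGraph V) (R : List (V × V)) (f g : V → ℕ) : ℕ :=
  Set.ncard {σ | ∃ w, G.Pending R (Setoid.ker f) w ∧ G.sig g w ≠ G.sig f w ∧ σ = G.sig f w}

end LGraph

/-- `Hist G R f c`: the class names `f` can be reached with `c` updates. One starts with different
names for all vertices. In one step any set `S` of pairs may be chosen, each of them an input pair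
or a pair of vertices which are congruent under the current partition (the partition into vertices
of equal name), the classes of these pairs are united, and new names `g` are chosen in any way
such that two vertices have the same name exactly when they are in the same class of the new
partition. -/
inductive Hist {V : Type} (G : LGraph V) (R : List (V × V)) : (V → ℕ) → ℕ → Prop
  | start (f : V → ℕ) (hf : Function.Injective f) : Hist G R f 0
  | step {f : V → ℕ} {c : ℕ} (h : Hist G R f c) (S : Set (V × V))
      (hS : ∀ p ∈ S, p ∈ R ∨ G.Cong (Setoid.ker f) p.1 p.2) (g : V → ℕ)
      (hg : IsLeast {s : Setoid V | Setoid.ker f ≤ s ∧ ∀ p ∈ S, s p.1 p.2} (Setoid.ker g)) :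
      Hist G R g (c + G.updates R f g)

end Run7.h781.CC
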