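import Pool.Agent.Run7.h781.CC.Basic

/-!
# The hard family
-/

namespace Run7.h781.CC

open LGraph

/-- The largest power of two dividing `w`. -/
def P2 (w : ℕ) : ℕ := 2 ^ padicValNat 2 w

theorem P2_eq (e b : ℕ) : P2 (2 ^ e * (2 * b + 1)) = 2 ^ e := by
  unfold P2
  congr 1
  rw [padicValNat.mul (by positivity) (by omega)]
  have h1 : padicValNat 2 (2 ^ e) = e := padicValNat.prime_pow e
  have h2 : padicValNat 2 (2 * b + 1) = 0 := by
    apply padicValNat.eq_zero_of_not_dvd
    omega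
  rw [h1, h2]; rfl

theorem exists_rep {w : ℕ} (hw : w ≠ 0) : ∃ e b, w = 2 ^ e * (2 * b + 1) := by
  obtain ⟨e, m, hm, h⟩ := Nat.exists_eq_two_pow_mul_odd hw
  obtain ⟨b, hb⟩ := hm
  exact ⟨e, b, by rw [h, hb]⟩

/-- Lower premise position of node `i`. -/
def pl (i : ℕ) : ℕ := if i % 2 = 0 then 4 * (i / 2 - P2 (i / 2)) else 4 * ((i + 1) / 2)

/-- Upper premise position of node `i`. -/
def ph (i : ℕ) : ℕ := if i % 2 = 0 then 4 * (i / 2) - 3
  else 4 * ((i + 1) / 2) + 4 * P2 ((i + 1) / 2) - 3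

theorem pl_leaf (t : ℕ) : pl (2 * t) = 4 * (t - P2 t) := by
  unfold pl
  rw [if_pos (by omega), Nat.mul_div_cancel_left _ (by norm_num)]

theorem ph_leaf (t : ℕ) : ph (2 * t) = 4 * t - 3 := by
  unfold ph
  rw [if_pos (by omega), Nat.mul_div_cancel_left _ (by norm_num)]

theorem pl_int {w : ℕ} (hw : 1 ≤ w) : pl (2 * w - 1) = 4 * w := by
  unfold pl
  rw [if_neg (by omega)]
  congr 1; omega

theorem ph_int {w : ℕ} (hw : 1 ≤ w) : ph (2 * w - 1) = 4 * w + 4 * P2 w - 3 := by
  unfold ph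
  rw [if_neg (by omega)]
  have : (2 * w - 1 + 1) / 2 = w := by omega
  rw [this]

/-- Number of leaves. -/
def LL (K : ℕ) : ℕ := 2 ^ (K + 1)

/-- Number of path vertices. -/
def MM (K : ℕ) : ℕ := 4 * LL K - 2

/-- Number of vertices. -/
def NN (K : ℕ) : ℕ := MM K + LL K

theorem LL_eq (K : ℕ) : LL K = 2 * 2 ^ K := by unfold LL; rw [pow_succ]; ring

theorem MM_eq (K : ℕ) : MM K = 4 * LL K - 2 := rfl

theorem NN_eq (K : ℕ) : NN K = MM K + LL K := rfl

theorem LL_pos (K : ℕ) : 2 ≤ LL K := by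
  have : 1 ≤ 2 ^ K := Nat.one_le_two_pow
  rw [LL_eq]; omega

theorem NN_pos (K : ℕ) : 0 < NN K := by
  have := LL_pos K
  rw [NN_eq]; omega

theorem mult_gap {d x y : ℕ} (hx : d ∣ x) (hy : d ∣ y) (h : x < y) : x + d ≤ y := by
  obtain ⟨a, rfl⟩ := hx
  obtain ⟨b, rfl⟩ := hy
  have : a < b := lt_of_mul_lt_mul_left h (Nat.zero_le d)
  calc d * a + d = d * (a + 1) := by ring
    _ ≤ d * b := Nat.mul_le_mul_left _ this

theorem gap_pow {e b k : ℕ} (h : 2 ^ e * (2 * b + 1) < 2 ^ k) :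
    2 ^ e * (2 * b + 1) + 2 ^ e ≤ 2 ^ k := by
  apply mult_gap (Dvd.intro _ rfl) _ h
  apply pow_dvd_pow
  by_contra hc
  have h1 : 2 ^ k ≤ 2 ^ e := Nat.pow_le_pow_right (by norm_num) (by omega)
  have h2 : 2 ^ e * 1 ≤ 2 ^ e * (2 * b + 1) := Nat.mul_le_mul_left _ (by omega)
  omega

theorem gap_pow' {e b k : ℕ} (h : 2 ^ k < 2 ^ e * (2 * b + 1))
    (h' : 2 ^ e * (2 * b + 1) < 2 ^ (k + 1)) :
    2 ^ k + 2 ^ e ≤ 2 ^ e * (2 * b + 1) := by
  apply mult_gap _ (Dvd.intro _ rfl) h
  apply pow_dvd_pow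
  by_contra hc
  have h1 : 2 ^ (k + 1) ≤ 2 ^ e := Nat.pow_le_pow_right (by norm_num) (by omega)
  have h2 : 2 ^ e * 1 ≤ 2 ^ e * (2 * b + 1) := Nat.mul_le_mul_left _ (by omega)
  omega

/-- Vertex number `x` (modulo the number of vertices). -/
def fx (K x : ℕ) : Fin (NN K) := ⟨x % NN K, Nat.mod_lt _ (NN_pos K)⟩

theorem fx_val {K x : ℕ} (h : x < NN K) : (fx K x).val = x := Nat.mod_eq_of_lt h

theorem fx_self {K : ℕ} (u : Fin (NN K)) : fx K u.val = u := by
  apply Fin.ext
  exact fx_val u.2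

theorem fx_inj {K x y : ℕ} (hx : x < NN K) (hy : y < NN K) (h : fx K x = fx K y) : x = y := by
  rw [← fx_val hx, ← fx_val hy, h]

/-- Labels. -/
def labN (K x : ℕ) : ℕ := if x < MM K then x / 2 else MM K + (x - MM K) % 2 ^ K

/-- Successors. -/
def outN (K x : ℕ) : List ℕ :=
  if x < MM K then
    (if x / 2 = 0 then [] else if x % 2 = 0 then [pl (x / 2)] else [ph (x / 2)])
  else [4 * (x - MM K)]

/-- The graph. -/
def GG (K : ℕ) : LGraph (Fin (NN K)) where
  lab u := labN K u.val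
  out u := (outN K u.val).map (fx K)

/-- The input pairs. -/
def RR (K : ℕ) : List (Fin (NN K) × Fin (NN K)) :=
  (List.range (2 * LL K - 2)).map (fun i => (fx K (2 * i + 1), fx K (2 * i + 2)))

/-- The relation on numbers. -/
def E {K : ℕ} (s : Setoid (Fin (NN K))) (a b : ℕ) : Prop := s (fx K a) (fx K b)

theorem E.refl {K : ℕ} (s : Setoid (Fin (NN K))) (a : ℕ) : E s a a := s.refl' _

theorem E.symm {K : ℕ} {s : Setoid (Fin (NN K))} {a b : ℕ} (h : E s a b) : E s b a := s.symm' h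

theorem E.trans {K : ℕ} {s : Setoid (Fin (NN K))} {a b c : ℕ} (h : E s a b) (h' : E s b c) :
    E s a c := s.trans' h h'

theorem E.chain {K : ℕ} {s : Setoid (Fin (NN K))} {a b : ℕ} (hab : a ≤ b)
    (h : ∀ j, a ≤ j → j < b → E s j (j + 1)) : E s a b := by
  induction b, hab using Nat.le_induction with
  | base => exact E.refl s a
  | succ n hn ih =>
    exact (ih (fun j h1 h2 => h j h1 (by omega))).trans (h n hn (by omega))

/-- premise of event `i` -/
def Prem {K : ℕ} (s : Setoid (Fin (NN K))) (i : ℕ) : Prop := i = 0 ∨ E s (pl i) (ph i)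

theorem cong_event {K : ℕ} {s : Setoid (Fin (NN K))} {i : ℕ} (hi : i < 2 * LL K - 1)
    (h : Prem s i) : (GG K).Cong s (fx K (2 * i)) (fx K (2 * i + 1)) := by
  have hM := MM_eq K
  have hN := NN_eq K
  have h1 : (fx K (2 * i)).val = 2 * i := fx_val (by omega)
  have h2 : (fx K (2 * i + 1)).val = 2 * i + 1 := fx_val (by omega)
  have e1 : 2 * i / 2 = i := by omega
  have e2 : (2 * i + 1) / 2 = i := by omega
  refine ⟨?_, ?_⟩
  · show labN K _ = labN K _
    rw [h1, h2]
    unfold labN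
    rw [if_pos (show 2 * i < MM K by omega), if_pos (show 2 * i + 1 < MM K by omega), e1, e2]
  · show List.Forall₂ _ ((outN K _).map _) ((outN K _).map _)
    rw [h1, h2]
    unfold outN
    rw [if_pos (show 2 * i < MM K by omega), if_pos (show 2 * i + 1 < MM K by omega), e1, e2]
    by_cases h0 : i = 0
    · rw [if_pos h0, if_pos h0]; simp
    · rw [if_neg h0, if_neg h0, if_pos (by omega), if_neg (by omega)]
      rcases h with h | h
      · exact absurd h h0
      · exact List.Forall₂.cons h List.Forall₂.nil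

/-! ### Everything on the path is equivalent in the closure -/

/-- premise for the leaf `a` -/
def HypL {K : ℕ} (s : Setoid (Fin (NN K))) (a : ℕ) : Prop :=
  a = 0 ∨ E s (4 * (a - P2 a)) (4 * a - 3)

theorem block {K : ℕ} (s : Setoid (Fin (NN K)))
    (hR : ∀ i, i < 2 * LL K - 2 → E s (2 * i + 1) (2 * i + 2))
    (hC : ∀ i, i < 2 * LL K - 1 → Prem s i → E s (2 * i) (2 * i + 1)) :
    ∀ e a, 2 ^ e ∣ a → a + 2 ^ e ≤ LL K → HypL s a →
      ∀ j, 4 * a ≤ j → j < 4 * (a + 2 ^ e) - 3 → E s j (j + 1) := by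
  intro e
  induction e with
  | zero =>
    intro a _ hL hyp j hj1 hj2
    have hj : j = 2 * (2 * a) := by simp at hj2; omega
    subst hj
    simp at hL
    apply hC (2 * a) (by omega)
    rcases hyp with h | h
    · left; omega
    · right
      rw [pl_leaf, ph_leaf]; exact h
  | succ e ih =>
    intro a hd hL hyp j hj1 hj2
    have hpe : 2 ^ (e + 1) = 2 * 2 ^ e := by rw [pow_succ]; ring
    have hpos : 1 ≤ 2 ^ e := Nat.one_le_two_pow
    obtain ⟨b, hb⟩ := hd
    have hw : a + 2 ^ e = 2 ^ e * (2 * b + 1) := by rw [hb, hpe]; ring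
    have hda : 2 ^ e ∣ a := ⟨2 * b, by rw [hb, hpe]; ring⟩
    have hdw : 2 ^ e ∣ a + 2 ^ e := ⟨_, hw⟩
    have hP : P2 (a + 2 ^ e) = 2 ^ e := by rw [hw, P2_eq]
    have b1 := ih a hda (by omega) hyp
    have hyp2 : HypL s (a + 2 ^ e) := by
      right
      rw [hP, Nat.add_sub_cancel]
      exact E.chain (by omega) b1
    have b2 := ih (a + 2 ^ e) hdw (by omega) hyp2
    rcases lt_trichotomy j (4 * (a + 2 ^ e) - 3) with h | h | h
    · exact b1 j hj1 h
    · have := hR (2 * (a + 2 ^ e) - 2) (by omega)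
      convert this using 1 <;> omega
    · by_cases h2 : j = 4 * (a + 2 ^ e) - 2
      · have := hC (2 * (a + 2 ^ e) - 1) (by omega) (by
          right
          rw [pl_int (by omega), ph_int (by omega), hP]
          apply E.chain (by omega)
          intro k hk1 hk2
          exact b2 k hk1 (by omega))
        convert this using 1 <;> omega
      · by_cases h3 : j = 4 * (a + 2 ^ e) - 1
        · have := hR (2 * (a + 2 ^ e) - 1) (by omega)
          convert this using 1 <;> omega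
        · exact b2 j (by omega) (by omega)

theorem closure_adj {K j : ℕ} (hj : j + 1 < MM K) :
    E ((GG K).closure (RR K)) j (j + 1) := by
  have h := block ((GG K).closure (RR K)) (fun i hi => by
    have hm : (fx K (2 * i + 1), fx K (2 * i + 2)) ∈ RR K := by
      unfold RR
      rw [List.mem_map]
      exact ⟨i, List.mem_range.2 hi, rfl⟩
    exact closure_pairs _ _ hm) (fun i hi hp => closure_closed _ _ (cong_event hi hp))
    (K + 1) 0 (dvd_zero _) (by simp [LL]) (Or.inl rfl)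
  apply h j (by omega)
  have h1 := MM_eq K
  have h2 : LL K = 2 ^ (K + 1) := rfl
  rw [← h2]
  omega

theorem closure_path {K p q : ℕ} (hp : p < MM K) (hq : q < MM K) :
    E ((GG K).closure (RR K)) p q := by
  rcases le_total p q with h | h
  · exact E.chain h (fun j _ h2 => closure_adj (by omega))
  · exact (E.chain h (fun j _ h2 => closure_adj (by omega))).symm

end Run7.h781.CC
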