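import Pool.Agent.Run7.h781.CC.Inst

/-!
# Invariants of runs on the hard family
-/

namespace Run7.h781.CC

open LGraph

variable {K : ℕ}

/-- The invariant. -/
structure Inv (s : Setoid (Fin (NN K))) : Prop where
  i1 : ∀ p q, p ≤ q → q < MM K → E s p q → ∀ j, p ≤ j → j < q → E s j (j + 1)
  i2 : ∀ p t, p < MM K → t < LL K → ¬ E s p (MM K + t)
  i3 : ∀ t t', t < LL K → t' < LL K → E s (MM K + t) (MM K + t') → t = t' ∨ E s (4 * t) (4 * t')
  i4 : ∀ i, i < 2 * LL K - 1 → E s (2 * i) (2 * i + 1) → Prem s i

theorem inv_bot : Inv (⊥ : Setoid (Fin (NN K))) := by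
  have hM := MM_eq K
  have hN := NN_eq K
  have hL := LL_pos K
  have key : ∀ a b, a < NN K → b < NN K → E (⊥ : Setoid (Fin (NN K))) a b → a = b := by
    intro a b ha hb h
    exact fx_inj ha hb h
  refine ⟨?_, ?_, ?_, ?_⟩
  · intro p q hpq hq h j h1 h2
    have := key p q (by omega) (by omega) h
    omega
  · intro p t hp ht h
    have := key p _ (by omega) (by omega) h
    omega
  · intro t t' ht ht' h
    have := key _ _ (by omega) (by omega) h
    left; omega
  · intro i hi h
    have := key _ _ (by omega) (by omega) h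
    omega

/-- Classification of the steps. -/
theorem classify {s : Setoid (Fin (NN K))} {u v : Fin (NN K)} (hn : ¬ s u v)
    (hj : (u, v) ∈ RR K ∨ (GG K).Cong s u v) :
    (∃ j, j + 1 < MM K ∧ (∀ i, j = 2 * i → Prem s i) ∧
      ((u = fx K j ∧ v = fx K (j + 1)) ∨ (v = fx K j ∧ u = fx K (j + 1)))) ∨
    (∃ t t', t < LL K ∧ t' < LL K ∧ u = fx K (MM K + t) ∧ v = fx K (MM K + t') ∧
      E s (4 * t) (4 * t')) := by
  have hM := MM_eq K
  have hN := NN_eq K
  have hL := LL_pos K
  rcases hj with hj | hj
  · unfold RR at hj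
    rw [List.mem_map] at hj
    obtain ⟨i, hi, he⟩ := hj
    rw [List.mem_range] at hi
    have h1 := (Prod.mk.inj he).1
    have h2 := (Prod.mk.inj he).2
    left
    refine ⟨2 * i + 1, by omega, fun i' hi' => by omega, Or.inl ⟨h1.symm, h2.symm⟩⟩
  · obtain ⟨hlab, hout⟩ := hj
    change labN K u.val = labN K v.val at hlab
    change List.Forall₂ s ((outN K u.val).map (fx K)) ((outN K v.val).map (fx K)) at hout
    have hu := u.2
    have hv := v.2
    unfold labN at hlab
    by_cases hu1 : u.val < MM K
    · rw [if_pos hu1] at hlab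
      by_cases hv1 : v.val < MM K
      · rw [if_pos hv1] at hlab
        left
        have hne : u.val ≠ v.val := fun h => hn (by rw [Fin.ext h])
        unfold outN at hout
        rw [if_pos hu1, if_pos hv1] at hout
        refine ⟨2 * (u.val / 2), by omega, ?_, ?_⟩
        · intro i hi
          have hi' : i = u.val / 2 := by omega
          by_cases h0 : i = 0
          · exact Or.inl h0
          · right
            rw [if_neg (show ¬ u.val / 2 = 0 by omega), if_neg (show ¬ v.val / 2 = 0 by omega)]
              at hout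
            by_cases hu2 : u.val % 2 = 0
            · rw [if_pos hu2, if_neg (show ¬ v.val % 2 = 0 by omega)] at hout
              simp only [List.map_cons, List.map_nil, List.forall₂_cons, List.Forall₂.nil,
                and_true] at hout
              rw [← hlab, ← hi'] at hout
              exact hout
            · rw [if_neg hu2, if_pos (show v.val % 2 = 0 by omega)] at hout
              simp only [List.map_cons, List.map_nil, List.forall₂_cons, List.Forall₂.nil,
                and_true] at hout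
              rw [← hlab, ← hi'] at hout
              exact s.symm' hout
        · by_cases hu2 : u.val % 2 = 0
          · left
            exact ⟨(fx_self u).symm.trans (congrArg (fx K) (by omega)),
              (fx_self v).symm.trans (congrArg (fx K) (by omega))⟩
          · right
            exact ⟨(fx_self v).symm.trans (congrArg (fx K) (by omega)),
              (fx_self u).symm.trans (congrArg (fx K) (by omega))⟩
      · rw [if_neg hv1] at hlab
        exfalso
        omega
    · rw [if_neg hu1] at hlab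
      by_cases hv1 : v.val < MM K
      · rw [if_pos hv1] at hlab
        exfalso
        omega
      · right
        unfold outN at hout
        rw [if_neg hu1, if_neg hv1] at hout
        simp only [List.map_cons, List.map_nil, List.forall₂_cons, List.Forall₂.nil,
          and_true] at hout
        exact ⟨u.val - MM K, v.val - MM K, by omega, by omega,
          (fx_self u).symm.trans (congrArg (fx K) (by omega)),
          (fx_self v).symm.trans (congrArg (fx K) (by omega)), hout⟩

/-- Preservation for steps joining neighbours. -/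
theorem inv_adj {s : Setoid (Fin (NN K))} (hs : Inv s) {j : ℕ} (hj : j + 1 < MM K)
    (hn : ¬ E s j (j + 1)) (hp : ∀ i, j = 2 * i → Prem s i) :
    Inv (unite s (fx K j) (fx K (j + 1))) ∧
      ∀ k, k + 1 < MM K → E (unite s (fx K j) (fx K (j + 1))) k (k + 1) →
        E s k (k + 1) ∨ k = j := by
  have hM := MM_eq K
  have hN := NN_eq K
  have hL := LL_pos K
  set s' := unite s (fx K j) (fx K (j + 1)) with hs'
  have hE : ∀ a b, E s' a b ↔ E s a b ∨ (E s a j ∧ E s (j + 1) b) ∨ (E s a (j + 1) ∧ E s j b) :=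
    fun a b => Iff.rfl
  have mono : ∀ {a b}, E s a b → E s' a b := fun h => Or.inl h
  have adj : ∀ p q, p ≤ q → q < MM K → E s' p q → ∀ k, p ≤ k → k < q → E s k (k + 1) ∨ k = j := by
    intro p q hpq hq h k h1 h2
    rcases (hE p q).1 h with h | ⟨h, h'⟩ | ⟨h, h'⟩
    · exact Or.inl (hs.i1 p q hpq hq h k h1 h2)
    · rcases lt_trichotomy k j with hk | hk | hk
      · exact Or.inl (hs.i1 p j (by omega) (by omega) h k h1 hk)
      · exact Or.inr hk
      · exact Or.inl (hs.i1 (j + 1) q (by omega) hq h' k (by omega) h2)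
    · by_cases hk : k ≤ j
      · exact Or.inl (hs.i1 p (j + 1) (by omega) (by omega) h k h1 (by omega))
      · exact Or.inl (hs.i1 j q (by omega) hq h' k (by omega) h2)
  refine ⟨⟨?_, ?_, ?_, ?_⟩, ?_⟩
  · intro p q hpq hq h k h1 h2
    rcases adj p q hpq hq h k h1 h2 with h | h
    · exact mono h
    · subst h
      exact (hE _ _).2 (Or.inr (Or.inl ⟨E.refl s _, E.refl s _⟩))
  · intro p t hp' ht h
    rcases (hE _ _).1 h with h | ⟨h, h'⟩ | ⟨h, h'⟩
    · exact hs.i2 p t hp' ht h
    · exact hs.i2 _ t (by omega) ht h'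
    · exact hs.i2 _ t (by omega) ht h'
  · intro t t' ht ht' h
    rcases (hE _ _).1 h with h | ⟨h, h'⟩ | ⟨h, h'⟩
    · rcases hs.i3 t t' ht ht' h with h | h
      · exact Or.inl h
      · exact Or.inr (mono h)
    · exact absurd h' (hs.i2 _ t' (by omega) ht')
    · exact absurd h' (hs.i2 _ t' (by omega) ht')
  · intro i hi h
    have hres : Prem s i := by
      rcases adj _ _ (by omega) (by omega) h (2 * i) le_rfl (by omega) with h | h
      · exact hs.i4 i hi h
      · exact hp i h.symm
    rcases hres with h | h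
    · exact Or.inl h
    · exact Or.inr (mono h)
  · intro k hk h
    exact adj k (k + 1) (by omega) hk h k le_rfl (by omega)

/-- Preservation for steps joining dummies. -/
theorem inv_dum {s : Setoid (Fin (NN K))} (hs : Inv s) {x y : ℕ} (hx : x < LL K)
    (hy : y < LL K) (hxy : E s (4 * x) (4 * y)) :
    Inv (unite s (fx K (MM K + x)) (fx K (MM K + y))) ∧
      ∀ k, k + 1 < MM K → E (unite s (fx K (MM K + x)) (fx K (MM K + y))) k (k + 1) →
        E s k (k + 1) := by
  have hM := MM_eq K
  have hN := NN_eq K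
  have hL := LL_pos K
  set s' := unite s (fx K (MM K + x)) (fx K (MM K + y)) with hs'
  have hE : ∀ a b, E s' a b ↔ E s a b ∨ (E s a (MM K + x) ∧ E s (MM K + y) b) ∨
      (E s a (MM K + y) ∧ E s (MM K + x) b) := fun a b => Iff.rfl
  have mono : ∀ {a b}, E s a b → E s' a b := fun h => Or.inl h
  have old : ∀ p b, p < MM K → E s' p b → E s p b := by
    intro p b hp h
    rcases (hE _ _).1 h with h | ⟨h, h'⟩ | ⟨h, h'⟩
    · exact h
    · exact absurd h (hs.i2 p x hp hx)
    · exact absurd h (hs.i2 p y hp hy)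
  refine ⟨⟨?_, ?_, ?_, ?_⟩, ?_⟩
  · intro p q hpq hq h k h1 h2
    exact mono (hs.i1 p q hpq hq (old p q (by omega) h) k h1 h2)
  · intro p t hp' ht h
    exact hs.i2 p t hp' ht (old p _ hp' h)
  · intro t t' ht ht' h
    have tr : ∀ a b, a < LL K → b < LL K → E s (MM K + a) (MM K + b) → E s (4 * a) (4 * b) := by
      intro a b ha hb hab
      rcases hs.i3 a b ha hb hab with h | h
      · subst h; exact E.refl s _
      · exact h
    rcases (hE _ _).1 h with h | ⟨h, h'⟩ | ⟨h, h'⟩
    · exact Or.inr (mono (tr _ _ ht ht' h))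
    · exact Or.inr (mono ((tr _ _ ht hx h).trans (hxy.trans (tr _ _ hy ht' h'))))
    · exact Or.inr (mono ((tr _ _ ht hy h).trans (hxy.symm.trans (tr _ _ hx ht' h'))))
  · intro i hi h
    rcases hs.i4 i hi (old _ _ (by omega) h) with h | h
    · exact Or.inl h
    · exact Or.inr (mono h)
  · intro k hk h
    exact old _ _ (by omega) h

theorem Prem.mono {s s' : Setoid (Fin (NN K))} (h : s ≤ s') {i : ℕ} (hp : Prem s i) :
    Prem s' i := by
  rcases hp with hp | hp
  · exact Or.inl hp
  · exact Or.inr (h hp)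

/-- Preservation for one justified union. -/
theorem inv_one {s0 s : Setoid (Fin (NN K))} (h0 : s0 ≤ s) (hs : Inv s) {u v : Fin (NN K)}
    (hj : (u, v) ∈ RR K ∨ (GG K).Cong s0 u v) :
    Inv (unite s u v) ∧ ∀ k, k + 1 < MM K → E (unite s u v) k (k + 1) →
      E s k (k + 1) ∨ ∀ i, k = 2 * i → Prem s0 i := by
  by_cases hn : s u v
  · rw [unite_self hn]
    exact ⟨hs, fun k _ h => Or.inl h⟩
  · have hn0 : ¬ s0 u v := fun h => hn (h0 h)
    rcases classify hn0 hj with ⟨j, hjM, hp, ⟨hu, hv⟩ | ⟨hv, hu⟩⟩ | ⟨t, t', ht, ht', hu, hv, htt⟩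
    · subst hu hv
      obtain ⟨h1, h2⟩ := inv_adj hs hjM hn (fun i hi => (hp i hi).mono h0)
      refine ⟨h1, fun k hk h => ?_⟩
      rcases h2 k hk h with h | h
      · exact Or.inl h
      · subst h; exact Or.inr hp
    · subst hu hv
      have hn' : ¬ E s j (j + 1) := fun h => hn (E.symm h)
      rw [unite_comm]
      obtain ⟨h1, h2⟩ := inv_adj hs hjM hn' (fun i hi => (hp i hi).mono h0)
      refine ⟨h1, fun k hk h => ?_⟩
      rcases h2 k hk h with h | h
      · exact Or.inl h
      · subst h; exact Or.inr hp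
    · subst hu hv
      obtain ⟨h1, h2⟩ := inv_dum hs ht ht' (h0 htt)
      exact ⟨h1, fun k hk h => Or.inl (h2 k hk h)⟩

/-- Preservation for a batch of justified unions. -/
theorem inv_list {s0 s : Setoid (Fin (NN K))} (h0 : s0 ≤ s) (hs : Inv s)
    (l : List (Fin (NN K) × Fin (NN K)))
    (hj : ∀ p ∈ l, p ∈ RR K ∨ (GG K).Cong s0 p.1 p.2) :
    Inv (uniteL s l) ∧ ∀ k, k + 1 < MM K → E (uniteL s l) k (k + 1) →
      E s k (k + 1) ∨ ∀ i, k = 2 * i → Prem s0 i := by
  induction l generalizing s with
  | nil => exact ⟨hs, fun k _ h => Or.inl h⟩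
  | cons p l ih =>
    obtain ⟨h1, h2⟩ := inv_one h0 hs (u := p.1) (v := p.2) (hj p (by simp))
    obtain ⟨h3, h4⟩ := ih (h0.trans (le_unite s p.1 p.2)) h1 (fun q hq => hj q (by simp [hq]))
    refine ⟨h3, fun k hk h => ?_⟩
    rcases h4 k hk h with h | h
    · exact h2 k hk h
    · exact Or.inr h

theorem inv_batch {s s' : Setoid (Fin (NN K))} (hs : Inv s) {S : Set (Fin (NN K) × Fin (NN K))}
    (hj : ∀ p ∈ S, p ∈ RR K ∨ (GG K).Cong s p.1 p.2)
    (h : IsLeast {t : Setoid (Fin (NN K)) | s ≤ t ∧ ∀ p ∈ S, t p.1 p.2} s') :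
    Inv s' ∧ ∀ k, k + 1 < MM K → E s' k (k + 1) →
      E s k (k + 1) ∨ ∀ i, k = 2 * i → Prem s i := by
  obtain ⟨l, hl, rfl⟩ := least_eq h
  exact inv_list le_rfl hs l (fun p hp => hj p (hl p hp))

end Run7.h781.CC
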