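import Pool.Agent.Run7.h781.CC.Basic

/-!
# The hard family without input pairs: the graph and its normal forms
-/

namespace Run7.h781.CC.KZ

open Run7.h781.CC LGraph

/-- Vertex codes. -/
inductive T where
  | w (l a : ℕ)
  | h (l a : ℕ)
  | v (j l : ℕ)
  | x (j : ℕ)
  | r
  | d (a : ℕ)
  deriving DecidableEq

/-- The tree over the leaves of the trie. -/
def WW (L l a : ℕ) : T := if l = L then .w l a else .h l a

/-- labels -/
def lab : T → ℕ
  | .w 0 _ => 0
  | .w (_ + 1) _ => 1
  | .h _ _ => 2
  | .v _ _ => 2
  | .x _ => 3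
  | .r => 3
  | .d a => 4 + a / 2

/-- switches -/
def sw (l a : ℕ) : T := if a % 2 = 0 then .r else .x l

/-- successors -/
def out (L : ℕ) : T → List T
  | .w 0 _ => []
  | .w (l + 1) a => [.w l (a / 2), sw (l + 1) a]
  | .h l a => [WW L (l + 1) (2 * a), WW L (l + 1) (2 * a + 1)]
  | .v j l => if l + 1 = j then [WW L j 0, WW L j 0] else [.v j (l + 1), WW L (l + 1) 1]
  | .x j => if j = 1 then [WW L 0 0] else [.v (j - 1) 0]
  | .r => [WW L 0 0]
  | .d a => [.w L a]

/-- the vertices of the graph -/
def Valid (L : ℕ) : T → Prop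
  | .w l a => l ≤ L ∧ a < 2 ^ l
  | .h l a => l < L ∧ a < 2 ^ l
  | .v j l => 1 ≤ j ∧ j < L ∧ l < j
  | .x j => 1 ≤ j ∧ j ≤ L
  | .r => True
  | .d a => a < 2 ^ L

theorem valid_WW {L l a : ℕ} (hl : l ≤ L) (ha : a < 2 ^ l) : Valid L (WW L l a) := by
  unfold WW
  split_ifs with h
  · exact ⟨hl, ha⟩
  · exact ⟨by omega, ha⟩

theorem valid_out {L : ℕ} (hL : 1 ≤ L) {t : T} (ht : Valid L t) : ∀ u ∈ out L t, Valid L u := by
  intro u hu
  have h1 : ∀ n : ℕ, 1 ≤ 2 ^ n := fun n => Nat.one_le_two_pow
  cases t with
  | w l a =>
    cases l with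
    | zero => simp [out] at hu
    | succ l =>
      obtain ⟨h2, h3⟩ := ht
      rw [pow_succ] at h3
      simp only [out, List.mem_cons, List.not_mem_nil, or_false] at hu
      rcases hu with rfl | rfl
      · exact ⟨by omega, by omega⟩
      · unfold sw
        split_ifs
        · exact trivial
        · exact ⟨by omega, h2⟩
  | h l a =>
    obtain ⟨h2, h3⟩ := ht
    simp only [out, List.mem_cons, List.not_mem_nil, or_false] at hu
    rcases hu with rfl | rfl
    · exact valid_WW (by omega) (by rw [pow_succ]; omega)
    · exact valid_WW (by omega) (by rw [pow_succ]; omega)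
  | v j l =>
    obtain ⟨h2, h3, h4⟩ := ht
    have := h1 j
    simp only [out] at hu
    split_ifs at hu with h5
    · simp only [List.mem_cons, List.not_mem_nil, or_false, or_self] at hu
      subst hu
      exact valid_WW (by omega) (by omega)
    · simp only [List.mem_cons, List.not_mem_nil, or_false] at hu
      rcases hu with rfl | rfl
      · exact ⟨h2, h3, by omega⟩
      · refine valid_WW (by omega) ?_
        have := h1 l
        rw [pow_succ]; omega
  | x j =>
    obtain ⟨h2, h3⟩ := ht
    simp only [out] at hu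
    split_ifs at hu with h5
    · simp only [List.mem_cons, List.not_mem_nil, or_false] at hu
      subst hu
      exact valid_WW (by omega) (by simp)
    · simp only [List.mem_cons, List.not_mem_nil, or_false] at hu
      subst hu
      exact ⟨by omega, by omega, by omega⟩
  | r =>
    simp only [out, List.mem_cons, List.not_mem_nil, or_false] at hu
    subst hu
    exact valid_WW (by omega) (by simp)
  | d a =>
    simp only [out, List.mem_cons, List.not_mem_nil, or_false] at hu
    subst hu
    exact ⟨le_rfl, ht⟩

/-- Normal form after stage `c`. -/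
def nf (L c : ℕ) : T → T
  | .w l a => .w l (a % 2 ^ (l - c))
  | .h l a => .h l (a % 2 ^ (l - c))
  | .v j l => if j ≤ c then .h l 0 else .v j l
  | .x j => if j ≤ c then .r else .x j
  | .r => .r
  | .d a => if c < L then .d a else .d (2 * (a / 2))

theorem mod_succ (a k : ℕ) : a % 2 ^ (k + 1) = 2 * (a / 2 % 2 ^ k) + a % 2 := by
  rw [pow_succ, mul_comm (2 ^ k) 2, Nat.mod_mul]
  ring

theorem nf_WW (L c l a : ℕ) : nf L c (WW L l a) = WW L l (a % 2 ^ (l - c)) := by
  unfold WW
  split_ifs <;> rfl

theorem WW_inj {L l a l' a' : ℕ} (h : WW L l a = WW L l' a') : l = l' ∧ a = a' := by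
  unfold WW at h
  split_ifs at h with h1 h2 h2
  · exact ⟨(T.w.inj h).1, (T.w.inj h).2⟩
  · exact ⟨(T.h.inj h).1, (T.h.inj h).2⟩

theorem two_mul_mod (a a' l c : ℕ) (h : 2 * a % 2 ^ (l + 1 - c) = 2 * a' % 2 ^ (l + 1 - c)) :
    a % 2 ^ (l - c) = a' % 2 ^ (l - c) := by
  by_cases hc : c ≤ l
  · have : l + 1 - c = (l - c) + 1 := by omega
    rw [this, mod_succ, mod_succ] at h
    have e1 : 2 * a / 2 = a := by omega
    have e2 : 2 * a' / 2 = a' := by omega
    rw [e1, e2] at h
    omega
  · have : l - c = 0 := by omega
    rw [this]; simp [Nat.mod_one]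

theorem two_mul_ne (a l c : ℕ) (hc : c < l) (b : ℕ) : 2 * a % 2 ^ (l - c) ≠ (2 * b + 1) % 2 ^ (l - c) := by
  have : l - c = (l - c - 1) + 1 := by omega
  rw [this, mod_succ, mod_succ]
  omega

theorem nf_w (L c l a : ℕ) : nf L c (.w l a) = .w l (a % 2 ^ (l - c)) := rfl
theorem nf_h (L c l a : ℕ) : nf L c (.h l a) = .h l (a % 2 ^ (l - c)) := rfl
theorem nf_v (L c j l : ℕ) : nf L c (.v j l) = if j ≤ c then .h l 0 else .v j l := rfl
theorem nf_x (L c j : ℕ) : nf L c (.x j) = if j ≤ c then .r else .x j := rfl
theorem nf_r (L c : ℕ) : nf L c .r = .r := rfl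
theorem nf_d (L c a : ℕ) : nf L c (.d a) = if c < L then .d a else .d (2 * (a / 2)) := rfl

theorem cong_ww {L c l a l' a' : ℕ}
    (hout : List.Forall₂ (fun p q => nf L c p = nf L c q) (out L (.w (l + 1) a))
      (out L (.w (l' + 1) a'))) :
    nf L c (.w (l + 1) a) = nf L c (.w (l' + 1) a') := by
  simp only [out, List.forall₂_cons, List.Forall₂.nil, and_true] at hout
  obtain ⟨h1, h2⟩ := hout
  rw [nf_w, nf_w] at h1
  obtain ⟨h3, h4⟩ := T.w.inj h1
  subst h3
  rw [nf_w, nf_w]
  by_cases hc : c ≤ l
  · have e1 : l + 1 - c = (l - c) + 1 := by omega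
    have h5 : a % 2 = a' % 2 := by
      unfold sw at h2
      by_cases ha : a % 2 = 0
      · by_cases ha' : a' % 2 = 0
        · omega
        · rw [if_pos ha, if_neg ha', nf_r, nf_x, if_neg (by omega)] at h2
          exact absurd h2 (by simp)
      · by_cases ha' : a' % 2 = 0
        · rw [if_neg ha, if_pos ha', nf_r, nf_x, if_neg (by omega)] at h2
          exact absurd h2 (by simp)
        · omega
    rw [e1, mod_succ, mod_succ, h4, h5]
  · have e1 : l + 1 - c = 0 := by omega
    rw [e1]; simp [Nat.mod_one]

theorem cong_hh {L c l a l' a' : ℕ}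
    (hout : List.Forall₂ (fun p q => nf L c p = nf L c q) (out L (.h l a))
      (out L (.h l' a'))) :
    nf L c (.h l a) = nf L c (.h l' a') := by
  simp only [out, List.forall₂_cons, List.Forall₂.nil, and_true] at hout
  obtain ⟨h1, _⟩ := hout
  rw [nf_WW, nf_WW] at h1
  obtain ⟨h3, h4⟩ := WW_inj h1
  have h5 : l = l' := by omega
  subst h5
  rw [nf_h, nf_h, two_mul_mod a a' l c h4]

theorem v_ne_WW {L c j l l' b : ℕ} (hj : ¬ j ≤ c) : nf L c (.v j l) ≠ WW L l' b := by
  rw [nf_v, if_neg hj]
  unfold WW
  split_ifs <;> simp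

theorem cong_vh {L c j l l' a' : ℕ} (hv : Valid L (.v j l)) 
    (hout : List.Forall₂ (fun p q => nf L c p = nf L c q) (out L (.v j l))
      (out L (.h l' a'))) :
    nf L c (.v j l) = nf L c (.h l' a') := by
  obtain ⟨h2, h3, h4⟩ := hv
  by_cases h5 : l + 1 = j
  · simp only [out, if_pos h5, List.forall₂_cons, List.Forall₂.nil, and_true] at hout
    obtain ⟨h6, h7⟩ := hout
    rw [nf_WW, nf_WW] at h6 h7
    obtain ⟨h8, h9⟩ := WW_inj h6
    obtain ⟨_, h10⟩ := WW_inj h7
    have hc : j ≤ c := by
      by_contra hc
      rw [h9] at h10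
      rw [← h8] at h10
      exact two_mul_ne a' j c (by omega) a' h10
    have h11 : l = l' := by omega
    subst h11
    rw [nf_v, if_pos hc, nf_h]
    have : l - c = 0 := by omega
    rw [this]; simp [Nat.mod_one]
  · simp only [out, if_neg h5, List.forall₂_cons, List.Forall₂.nil, and_true] at hout
    obtain ⟨h6, h7⟩ := hout
    rw [nf_WW] at h6
    by_cases hc : j ≤ c
    · rw [nf_WW, nf_WW] at h7
      obtain ⟨h8, _⟩ := WW_inj h7
      have h11 : l = l' := by omega
      subst h11
      rw [nf_v, if_pos hc, nf_h]
      have : l - c = 0 := by omega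
      rw [this]; simp [Nat.mod_one]
    · exact absurd h6 (v_ne_WW hc)

theorem cong_vv {L c j l j' l' : ℕ} (hv : Valid L (.v j l)) (hv' : Valid L (.v j' l'))
    (hout : List.Forall₂ (fun p q => nf L c p = nf L c q) (out L (.v j l))
      (out L (.v j' l'))) :
    nf L c (.v j l) = nf L c (.v j' l') := by
  obtain ⟨h2, h3, h4⟩ := hv
  obtain ⟨h2', h3', h4'⟩ := hv'
  by_cases h5 : l + 1 = j
  · by_cases h5' : l' + 1 = j'
    · simp only [out, if_pos h5, if_pos h5', List.forall₂_cons, List.Forall₂.nil, and_true] at hout
      obtain ⟨h6, _⟩ := hout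
      rw [nf_WW, nf_WW] at h6
      obtain ⟨h8, _⟩ := WW_inj h6
      have : l = l' := by omega
      subst this
      subst h8
      rfl
    · simp only [out, if_pos h5, if_neg h5', List.forall₂_cons, List.Forall₂.nil, and_true] at hout
      obtain ⟨h6, h7⟩ := hout
      by_cases hc' : j' ≤ c
      · rw [nf_WW, nf_WW] at h7
        obtain ⟨h8, h9⟩ := WW_inj h7
        have h10 : j ≤ c := by omega
        have : l = l' := by omega
        subst this
        rw [nf_v, nf_v, if_pos h10, if_pos hc']
      · rw [nf_WW] at h6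
        exact absurd h6.symm (v_ne_WW hc')
  · by_cases h5' : l' + 1 = j'
    · simp only [out, if_neg h5, if_pos h5', List.forall₂_cons, List.Forall₂.nil, and_true] at hout
      obtain ⟨h6, h7⟩ := hout
      by_cases hc : j ≤ c
      · rw [nf_WW, nf_WW] at h7
        obtain ⟨h8, h9⟩ := WW_inj h7
        have h10 : j' ≤ c := by omega
        have : l = l' := by omega
        subst this
        rw [nf_v, nf_v, if_pos h10, if_pos hc]
      · rw [nf_WW] at h6
        exact absurd h6 (v_ne_WW hc)
    · simp only [out, if_neg h5, if_neg h5', List.forall₂_cons, List.Forall₂.nil, and_true] at hout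
      obtain ⟨h6, h7⟩ := hout
      rw [nf_WW, nf_WW] at h7
      obtain ⟨h8, h9⟩ := WW_inj h7
      have : l = l' := by omega
      subst this
      by_cases h10 : j ≤ c
      · by_cases h11 : j' ≤ c
        · rw [nf_v, nf_v, if_pos h10, if_pos h11]
        · rw [nf_v, nf_v, if_pos h10, if_neg h11] at h6
          exact absurd h6 (by simp)
      · by_cases h11 : j' ≤ c
        · rw [nf_v, nf_v, if_neg h10, if_pos h11] at h6
          exact absurd h6 (by simp)
        · rw [nf_v, nf_v, if_neg h10, if_neg h11] at h6
          rw [(T.v.inj h6).1]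

theorem cong_xr {L c j : ℕ}
    (hout : List.Forall₂ (fun p q => nf L c p = nf L c q) (out L (.x j)) (out L .r)) :
    j ≤ c + 1 := by
  simp only [out] at hout
  by_cases h1 : j = 1
  · omega
  · rw [if_neg h1] at hout
    simp only [List.forall₂_cons, List.Forall₂.nil, and_true] at hout
    by_contra hc
    have h2 : ¬ j - 1 ≤ c := by omega
    rw [nf_WW] at hout
    exact v_ne_WW h2 hout

theorem cong_xx {L c j j' : ℕ} (hx : Valid L (.x j)) (hx' : Valid L (.x j'))
    (hout : List.Forall₂ (fun p q => nf L c p = nf L c q) (out L (.x j)) (out L (.x j'))) :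
    j = j' ∨ (j ≤ c + 1 ∧ j' ≤ c + 1) := by
  have hx1 := hx.1
  have hx1' := hx'.1
  by_cases h1 : j = 1
  · subst h1
    have : List.Forall₂ (fun p q => nf L c p = nf L c q) (out L (.x j')) (out L .r) := by
      simp only [out, if_true] at hout ⊢
      exact hout.flip.imp (fun a b h => h.symm)
    exact Or.inr ⟨by omega, cong_xr this⟩
  · by_cases h1' : j' = 1
    · subst h1'
      have : List.Forall₂ (fun p q => nf L c p = nf L c q) (out L (.x j)) (out L .r) := by
        simp only [out, if_true] at hout ⊢
        exact hout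
      exact Or.inr ⟨cong_xr this, by omega⟩
    · simp only [out, if_neg h1, if_neg h1', List.forall₂_cons, List.Forall₂.nil, and_true] at hout
      rw [nf_v, nf_v] at hout
      split_ifs at hout with h2 h3 h3
      · right; omega
      · have := (T.v.inj hout).1
        left; omega

theorem cong_dd {L c a a' : ℕ} (hlab : lab (.d a) = lab (.d a'))
    (hout : List.Forall₂ (fun p q => nf L c p = nf L c q) (out L (.d a)) (out L (.d a'))) :
    nf L c (.d a) = nf L c (.d a') := by
  have h1 : a / 2 = a' / 2 := by
    simp only [lab] at hlab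
    omega
  simp only [out, List.forall₂_cons, List.Forall₂.nil, and_true] at hout
  rw [nf_w, nf_w] at hout
  have h2 := (T.w.inj hout).2
  rw [nf_d, nf_d]
  split_ifs with h3
  · have h4 : L - c = (L - c - 1) + 1 := by omega
    rw [h4, mod_succ, mod_succ] at h2
    congr 1
    omega
  · rw [h1]

/-- The only congruences modulo the normal forms of stage `c` are those of stage `c`, and those
which start stage `c + 1`. -/
theorem cong_nf {L c : ℕ} {u t : T} (hu : Valid L u) (ht : Valid L t)
    (hlab : lab u = lab t)
    (hout : List.Forall₂ (fun p q => nf L c p = nf L c q) (out L u) (out L t)) :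
    nf L c u = nf L c t ∨ (u = .x (c + 1) ∧ nf L c t = .r) ∨ (t = .x (c + 1) ∧ nf L c u = .r) := by
  have hflip : List.Forall₂ (fun p q => nf L c p = nf L c q) (out L t) (out L u) :=
    hout.flip.imp (fun a b h => h.symm)
  cases u with
  | w l a =>
    cases t with
    | w l' a' =>
      left
      cases l with
      | zero =>
        cases l' with
        | zero => simp [nf, Nat.mod_one]
        | succ l' => simp [lab] at hlab
      | succ l =>
        cases l' with
        | zero => simp [lab] at hlab
        | succ l' => exact cong_ww hout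
    | h l' a' => cases l <;> simp [lab] at hlab
    | v j l' => cases l <;> simp [lab] at hlab
    | x j => cases l <;> simp [lab] at hlab
    | r => cases l <;> simp [lab] at hlab
    | d a' => cases l <;> simp [lab] at hlab <;> omega
  | h l a =>
    cases t with
    | w l' a' => cases l' <;> simp [lab] at hlab
    | h l' a' => exact Or.inl (cong_hh hout)
    | v j l' => exact Or.inl (cong_vh ht hflip).symm
    | x j => simp [lab] at hlab
    | r => simp [lab] at hlab
    | d a' => simp [lab] at hlab; omega
  | v j l =>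
    cases t with
    | w l' a' => cases l' <;> simp [lab] at hlab
    | h l' a' => exact Or.inl (cong_vh hu hout)
    | v j' l' => exact Or.inl (cong_vv hu ht hout)
    | x j => simp [lab] at hlab
    | r => simp [lab] at hlab
    | d a' => simp [lab] at hlab; omega
  | x j =>
    cases t with
    | w l' a' => cases l' <;> simp [lab] at hlab
    | h l' a' => simp [lab] at hlab
    | v j' l' => simp [lab] at hlab
    | x j' =>
      rcases cong_xx hu ht hout with h | ⟨h1, h2⟩
      · left; rw [h]
      · by_cases h3 : j = c + 1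
        · by_cases h4 : j' = c + 1
          · left; rw [h3, h4]
          · right; left
            exact ⟨by rw [h3], by rw [nf_x, if_pos (by omega)]⟩
        · by_cases h4 : j' = c + 1
          · right; right
            exact ⟨by rw [h4], by rw [nf_x, if_pos (by omega)]⟩
          · left
            rw [nf_x, nf_x, if_pos (by omega), if_pos (by omega)]
    | r =>
      have h1 := cong_xr hout
      by_cases h3 : j = c + 1
      · right; left; exact ⟨by rw [h3], rfl⟩
      · left
        rw [nf_x, if_pos (by omega), nf_r]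
    | d a' => simp [lab] at hlab; omega
  | r =>
    cases t with
    | w l' a' => cases l' <;> simp [lab] at hlab
    | h l' a' => simp [lab] at hlab
    | v j' l' => simp [lab] at hlab
    | x j =>
      have h1 := cong_xr hflip
      by_cases h3 : j = c + 1
      · right; right; exact ⟨by rw [h3], rfl⟩
      · left
        rw [nf_x, if_pos (by omega), nf_r]
    | r => exact Or.inl rfl
    | d a' => simp [lab] at hlab; omega
  | d a =>
    cases t with
    | w l' a' => cases l' <;> simp [lab] at hlab <;> omega
    | h l' a' => simp [lab] at hlab; omega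
    | v j' l' => simp [lab] at hlab; omega
    | x j => simp [lab] at hlab; omega
    | r => simp [lab] at hlab; omega
    | d a' => exact Or.inl (cong_dd hlab hout)

end Run7.h781.CC.KZ
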