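import Pool.Agent.Run7.h781.CC.KZ

/-!
# The hard family without input pairs: invariants of histories
-/

namespace Run7.h781.CC.KZ

open Run7.h781.CC LGraph

/-- the vertex set -/
abbrev VV (K : ℕ) : Type := {t : T // Valid (K + 1) t}

/-- the graph -/
def GK (K : ℕ) : LGraph (VV K) where
  lab v := lab v.1
  out v := (out (K + 1) v.1).pmap Subtype.mk (valid_out (by omega) v.2)

/-- relation on codes -/
def E {K : ℕ} (s : Setoid (VV K)) (t u : T) : Prop :=
  ∃ (ht : Valid (K + 1) t) (hu : Valid (K + 1) u), s ⟨t, ht⟩ ⟨u, hu⟩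

theorem E.symm {K : ℕ} {s : Setoid (VV K)} {t u : T} (h : E s t u) : E s u t := by
  obtain ⟨h1, h2, h3⟩ := h
  exact ⟨h2, h1, s.symm' h3⟩

theorem E.trans {K : ℕ} {s : Setoid (VV K)} {t u v : T} (h : E s t u) (h' : E s u v) :
    E s t v := by
  obtain ⟨h1, h2, h3⟩ := h
  obtain ⟨h1', h2', h3'⟩ := h'
  exact ⟨h1, h2', s.trans' h3 h3'⟩

theorem E.refl {K : ℕ} (s : Setoid (VV K)) {t : T} (h : Valid (K + 1) t) : E s t t :=
  ⟨h, h, s.refl' _⟩

theorem E.mono {K : ℕ} {s s' : Setoid (VV K)} (hs : s ≤ s') {t u : T} (h : E s t u) : E s' t u := by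
  obtain ⟨h1, h2, h3⟩ := h
  exact ⟨h1, h2, hs h3⟩

theorem forall₂_pmap {P : T → Prop} (s : {t // P t} → {t // P t} → Prop) :
    ∀ (l l' : List T) (h : ∀ a ∈ l, P a) (h' : ∀ a ∈ l', P a),
      List.Forall₂ s (l.pmap Subtype.mk h) (l'.pmap Subtype.mk h') ↔
        List.Forall₂ (fun a b => ∃ ha hb, s ⟨a, ha⟩ ⟨b, hb⟩) l l' := by
  intro l
  induction l with
  | nil =>
    intro l' h h'
    cases l' with
    | nil => simp
    | cons b l' => simp
  | cons a l ih =>
    intro l' h h'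
    cases l' with
    | nil => simp
    | cons b l' =>
      simp only [List.pmap, List.forall₂_cons]
      rw [ih l']
      constructor
      · rintro ⟨h1, h2⟩
        exact ⟨⟨_, _, h1⟩, h2⟩
      · rintro ⟨⟨ha, hb, h1⟩, h2⟩
        exact ⟨h1, h2⟩

theorem cong_iff {K : ℕ} (s : Setoid (VV K)) (u v : VV K) :
    (GK K).Cong s u v ↔ lab u.1 = lab v.1 ∧
      List.Forall₂ (E s) (out (K + 1) u.1) (out (K + 1) v.1) := by
  unfold LGraph.Cong
  exact and_congr Iff.rfl (forall₂_pmap (s := fun a b => s a b) _ _ _ _)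

/-- congruence on codes -/
def CE {K : ℕ} (s : Setoid (VV K)) (t u : T) : Prop :=
  lab t = lab u ∧ List.Forall₂ (E s) (out (K + 1) t) (out (K + 1) u)

theorem nf_nf (L c : ℕ) (t : T) : nf L (c + 1) (nf L c t) = nf L (c + 1) t := by
  have hm : ∀ a l : ℕ, a % 2 ^ (l - c) % 2 ^ (l - (c + 1)) = a % 2 ^ (l - (c + 1)) := by
    intro a l
    apply Nat.mod_mod_of_dvd
    exact pow_dvd_pow 2 (by omega)
  cases t with
  | w l a => rw [nf_w, nf_w, nf_w, hm]
  | h l a => rw [nf_h, nf_h, nf_h, hm]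
  | v j l =>
    rw [nf_v, nf_v]
    by_cases h1 : j ≤ c
    · rw [if_pos h1, if_pos (by omega), nf_h, Nat.zero_mod]
    · rw [if_neg h1, nf_v]
  | x j =>
    rw [nf_x, nf_x]
    by_cases h1 : j ≤ c
    · rw [if_pos h1, if_pos (by omega), nf_r]
    · rw [if_neg h1, nf_x]
  | r => rfl
  | d a =>
    rw [nf_d, nf_d]
    by_cases h1 : c < L
    · rw [if_pos h1, nf_d]
    · rw [if_neg h1, nf_d, if_neg (by omega), if_neg (by omega)]
      congr 1; omega

theorem nf_mono {L c : ℕ} {t u : T} (h : nf L c t = nf L c u) :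
    nf L (c + 1) t = nf L (c + 1) u := by
  rw [← nf_nf, h, nf_nf]

theorem nf_eq_r {L c : ℕ} {t : T} (h : nf L c t = .r) : t = .r ∨ ∃ j, j ≤ c ∧ t = .x j := by
  cases t with
  | w l a => rw [nf_w] at h; exact absurd h (by simp)
  | h l a => rw [nf_h] at h; exact absurd h (by simp)
  | v j l => rw [nf_v] at h; split_ifs at h
  | x j =>
    rw [nf_x] at h
    split_ifs at h with h1
    exact Or.inr ⟨j, h1, rfl⟩
  | r => exact Or.inl rfl
  | d a => rw [nf_d] at h; split_ifs at h

/-- The invariant. -/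
structure Inv {K : ℕ} (s : Setoid (VV K)) : Prop where
  bis : ∀ t u, E s t u → CE s t u
  up : ∃ c ≤ K + 1, (∀ t u, E s t u → nf (K + 1) c t = nf (K + 1) c u) ∧
    ∀ j, 1 ≤ j → j ≤ c → E s (.x j) .r

theorem CE.refl {K : ℕ} (s : Setoid (VV K)) {t : T} (ht : Valid (K + 1) t) : CE s t t := by
  refine ⟨rfl, ?_⟩
  have h := valid_out (L := K + 1) (by omega) ht
  revert h
  generalize out (K + 1) t = l
  intro h
  induction l with
  | nil => exact List.Forall₂.nil
  | cons a l ih =>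
    exact List.Forall₂.cons (E.refl s (h a (by simp))) (ih (fun b hb => h b (by simp [hb])))

theorem CE.mono {K : ℕ} {s s' : Setoid (VV K)} (hs : s ≤ s') {t u : T} (h : CE s t u) :
    CE s' t u := ⟨h.1, h.2.imp (fun _ _ h => h.mono hs)⟩

theorem inv_bot {K : ℕ} : Inv (⊥ : Setoid (VV K)) := by
  have key : ∀ t u, E (⊥ : Setoid (VV K)) t u → t = u := by
    rintro t u ⟨h1, h2, h3⟩
    exact congrArg Subtype.val h3
  refine ⟨?_, 0, by omega, ?_, ?_⟩
  · intro t u h
    have := key t u h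
    subst this
    exact CE.refl _ h.1
  · intro t u h
    rw [key t u h]
  · intro j h1 h2; omega

/-- congruence as a setoid -/
def congS {K : ℕ} (s : Setoid (VV K)) : Setoid (VV K) where
  r u v := (GK K).Cong s u v
  iseqv := by
    refine ⟨?_, ?_, ?_⟩
    · intro u
      rw [cong_iff]
      exact CE.refl s u.2
    · intro u v h
      exact ⟨h.1.symm, h.2.flip.imp (fun a b h => s.symm' h)⟩
    · intro u v w h h'
      refine ⟨h.1.trans h'.1, ?_⟩
      have : ∀ (a b c : List (VV K)), List.Forall₂ s a b → List.Forall₂ s b c →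
          List.Forall₂ s a c := by
        intro a b c hab
        induction hab generalizing c with
        | nil => intro hbc; cases hbc; exact List.Forall₂.nil
        | cons h1 _ ih =>
          intro hbc
          cases hbc with
          | cons h2 h3 => exact List.Forall₂.cons (s.trans' h1 h2) (ih _ h3)
      exact this _ _ _ h.2 h'.2

/-- One step of a history (without input pairs). -/
structure Step {K : ℕ} (s s' : Setoid (VV K)) : Prop where
  le : s ≤ s'
  cong : ∀ t u, E s' t u → CE s t u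

theorem step_of {K : ℕ} {s s' : Setoid (VV K)} (hs : Inv s) {S : Set (VV K × VV K)}
    (hS : ∀ p ∈ S, p ∈ ([] : List (VV K × VV K)) ∨ (GK K).Cong s p.1 p.2)
    (h : IsLeast {t : Setoid (VV K) | s ≤ t ∧ ∀ p ∈ S, t p.1 p.2} s') : Step s s' := by
  refine ⟨h.1.1, ?_⟩
  have hle : s' ≤ congS s := by
    apply h.2
    refine ⟨?_, ?_⟩
    · intro u v huv
      show (GK K).Cong s u v
      rw [cong_iff]
      exact hs.bis u.1 v.1 ⟨u.2, v.2, huv⟩
    · intro p hp
      rcases hS p hp with h | h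
      · simp at h
      · exact h
  rintro t u ⟨h1, h2, h3⟩
  exact (cong_iff s ⟨t, h1⟩ ⟨u, h2⟩).1 (hle h3)

theorem inv_step {K : ℕ} {s s' : Setoid (VV K)} (hs : Inv s) (h : Step s s') : Inv s' := by
  refine ⟨fun t u htu => (h.cong t u htu).mono h.le, ?_⟩
  obtain ⟨c, hc, h1, h2⟩ := hs.up
  have key : ∀ t u, E s' t u → nf (K + 1) c t = nf (K + 1) c u ∨
      (t = .x (c + 1) ∧ nf (K + 1) c u = .r) ∨ (u = .x (c + 1) ∧ nf (K + 1) c t = .r) := by
    intro t u htu
    obtain ⟨h3, h4⟩ := h.cong t u htu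
    exact cong_nf htu.1 htu.2.1 h3 (h4.imp (fun a b hab => h1 a b hab))
  by_cases hx : E s' (.x (c + 1)) .r
  · refine ⟨c + 1, hx.1.2, ?_, ?_⟩
    · intro t u htu
      rcases key t u htu with h5 | ⟨h5, h6⟩ | ⟨h5, h6⟩
      · exact nf_mono h5
      · have h7 : nf (K + 1) (c + 1) u = nf (K + 1) (c + 1) .r := nf_mono (by rw [h6, nf_r])
        rw [h5, h7, nf_x, if_pos le_rfl, nf_r]
      · have h7 : nf (K + 1) (c + 1) t = nf (K + 1) (c + 1) .r := nf_mono (by rw [h6, nf_r])
        rw [h5, h7, nf_x, if_pos le_rfl, nf_r]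
    · intro j hj1 hj2
      by_cases hj : j = c + 1
      · rw [hj]; exact hx
      · exact (h2 j hj1 (by omega)).mono h.le
  · refine ⟨c, hc, ?_, fun j hj1 hj2 => (h2 j hj1 hj2).mono h.le⟩
    have no : ∀ u, E s' (.x (c + 1)) u → nf (K + 1) c u ≠ .r := by
      intro u hu hr
      rcases nf_eq_r hr with rfl | ⟨j, hj, rfl⟩
      · exact hx hu
      · exact hx (hu.trans ((h2 j hu.2.1.1 hj).mono h.le))
    intro t u htu
    rcases key t u htu with h5 | ⟨h5, h6⟩ | ⟨h5, h6⟩
    · exact h5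
    · subst h5; exact absurd h6 (no u htu)
    · subst h5; exact absurd h6 (no t htu.symm)

/-! ### Descending -/

variable {K : ℕ} {s : Setoid (VV K)}

theorem desc_w (hs : ∀ t u, E s t u → CE s t u) {l a a' : ℕ}
    (h : E s (.w (l + 1) a) (.w (l + 1) a')) :
    E s (.w l (a / 2)) (.w l (a' / 2)) ∧ E s (sw (l + 1) a) (sw (l + 1) a') := by
  have := (hs _ _ h).2
  simpa only [out, List.forall₂_cons, List.Forall₂.nil, and_true] using this

theorem desc_W (hs : ∀ t u, E s t u → CE s t u) {l a a' : ℕ} (hl : l < K + 1)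
    (h : E s (WW (K + 1) l a) (WW (K + 1) l a')) :
    E s (WW (K + 1) (l + 1) (2 * a)) (WW (K + 1) (l + 1) (2 * a')) ∧
    E s (WW (K + 1) (l + 1) (2 * a + 1)) (WW (K + 1) (l + 1) (2 * a' + 1)) := by
  have e : ∀ b, WW (K + 1) l b = .h l b := fun b => if_neg (by omega)
  rw [e, e] at h
  have := (hs _ _ h).2
  simpa only [out, List.forall₂_cons, List.Forall₂.nil, and_true] using this

theorem desc_x (hs : ∀ t u, E s t u → CE s t u) {j : ℕ} (hj : 1 ≤ j)
    (h : E s (.x (j + 1)) .r) : ∀ l, l < j → E s (.v j l) (.h l 0) := by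
  have hjK : j + 1 ≤ K + 1 := h.1.2
  intro l
  induction l with
  | zero =>
    intro _
    have := (hs _ _ h).2
    simp only [out, if_neg (show ¬ j + 1 = 1 by omega), List.forall₂_cons, List.Forall₂.nil,
      and_true] at this
    have e : WW (K + 1) 0 0 = .h 0 0 := if_neg (by omega)
    rw [e] at this
    exact this
  | succ l ih =>
    intro hl
    have := (hs _ _ (ih (by omega))).2
    simp only [out, if_neg (show ¬ l + 1 = j by omega), List.forall₂_cons, List.Forall₂.nil,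
      and_true] at this
    have e : WW (K + 1) (l + 1) (2 * 0) = .h (l + 1) 0 := if_neg (by omega)
    rw [e] at this
    exact this.1

theorem spine (hs : ∀ t u, E s t u → CE s t u) {j : ℕ} (hj : 1 ≤ j)
    (h : E s (.x (j + 1)) .r) : E s (WW (K + 1) j 0) (WW (K + 1) j 1) := by
  have h1 := desc_x hs hj h (j - 1) (by omega)
  have := (hs _ _ h1).2
  have e : j - 1 + 1 = j := by omega
  simp only [out, e, if_true, List.forall₂_cons, List.Forall₂.nil, and_true, Nat.mul_zero,
    Nat.zero_add] at this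
  exact this.2

theorem leaves (hs : ∀ t u, E s t u → CE s t u) {j : ℕ}
    (h : E s (WW (K + 1) j 0) (WW (K + 1) j 1)) : ∀ l, j ≤ l → l ≤ K + 1 → ∀ γ, γ < 2 ^ (l - j) →
      E s (WW (K + 1) l γ) (WW (K + 1) l (2 ^ (l - j) + γ)) := by
  intro l hl
  induction l, hl using Nat.le_induction with
  | base =>
    intro _ γ hγ
    simp only [Nat.sub_self, pow_zero, Nat.lt_one_iff] at hγ ⊢
    subst hγ
    exact h
  | succ l hl ih =>
    intro hl' γ hγ
    have e : l + 1 - j = (l - j) + 1 := by omega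
    rw [e, pow_succ] at hγ ⊢
    have h1 := desc_W hs (by omega) (ih (by omega) (γ / 2) (by omega))
    rcases Nat.even_or_odd' γ with ⟨b, rfl | rfl⟩
    · have e1 : 2 * b / 2 = b := by omega
      rw [e1] at h1
      convert h1.1 using 2
      ring
    · have e1 : (2 * b + 1) / 2 = b := by omega
      rw [e1] at h1
      convert h1.2 using 2
      ring

theorem leaves' (hs : ∀ t u, E s t u → CE s t u) {j : ℕ} (hj : 1 ≤ j)
    (h : E s (.x (j + 1)) .r) {γ : ℕ} (hγ : γ < 2 ^ (K + 1 - j)) :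
    E s (.w (K + 1) γ) (.w (K + 1) (2 ^ (K + 1 - j) + γ)) := by
  have hjK : j + 1 ≤ K + 1 := h.1.2
  have := leaves hs (spine hs hj h) (K + 1) (by omega) le_rfl γ hγ
  simpa [WW] using this

theorem down (hs : ∀ t u, E s t u → CE s t u) {j : ℕ} (hj : 1 ≤ j) :
    ∀ l, j ≤ l → ∀ γ, γ < 2 ^ (l - j) → E s (.w l γ) (.w l (2 ^ (l - j) + γ)) →
      E s .r (.x j) := by
  intro l hl
  induction l, hl using Nat.le_induction with
  | base =>
    intro γ hγ h
    simp only [Nat.sub_self, pow_zero, Nat.lt_one_iff] at hγ h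
    subst hγ
    obtain ⟨j, rfl⟩ : ∃ i, j = i + 1 := ⟨j - 1, by omega⟩
    exact (desc_w hs h).2
  | succ l hl ih =>
    intro γ hγ h
    have e : l + 1 - j = (l - j) + 1 := by omega
    rw [e, pow_succ] at hγ h
    apply ih (γ / 2) (by omega)
    have := (desc_w hs h).1
    convert this using 2
    omega

theorem prev (hs : ∀ t u, E s t u → CE s t u) {j : ℕ} (hj : 1 ≤ j) (h : E s (.x (j + 1)) .r) :
    E s (.x j) .r := by
  have hjK : j + 1 ≤ K + 1 := h.1.2
  have h1 := leaves' hs hj h (γ := 0) (by positivity)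
  exact (down hs hj (K + 1) (by omega) 0 (by positivity) h1).symm

theorem prevs (hs : ∀ t u, E s t u → CE s t u) {j : ℕ} (h : E s (.x j) .r) :
    ∀ i, 1 ≤ i → i ≤ j → E s (.x i) .r := by
  intro i h1 h2
  induction j, h2 using Nat.le_induction with
  | base => exact h
  | succ j hj ih => exact ih (prev hs (by omega) h)

theorem full (hs : ∀ t u, E s t u → CE s t u) {j : ℕ} (h : E s (.x j) .r) :
    ∀ i, i < j → ∀ a, a < 2 ^ (K + 1) → E s (.w (K + 1) a) (.w (K + 1) (a % 2 ^ (K + 1 - i))) := by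
  have hjK : j ≤ K + 1 := h.1.2
  intro i
  induction i with
  | zero =>
    intro _ a ha
    rw [Nat.sub_zero, Nat.mod_eq_of_lt ha]
    exact E.refl s ⟨le_rfl, ha⟩
  | succ i ih =>
    intro hi a ha
    refine (ih (by omega) a ha).trans ?_
    have h1 : E s (.x (i + 1 + 1)) .r := prevs hs h (i + 2) (by omega) (by omega)
    have e : K + 1 - i = (K + 1 - (i + 1)) + 1 := by omega
    have hp : 0 < 2 ^ (K + 1 - (i + 1)) := by positivity
    have hm : a % 2 ^ (K + 1 - i) < 2 ^ (K + 1 - i) := Nat.mod_lt _ (by positivity)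
    have hmm : a % 2 ^ (K + 1 - i) % 2 ^ (K + 1 - (i + 1)) = a % 2 ^ (K + 1 - (i + 1)) :=
      Nat.mod_mod_of_dvd _ (pow_dvd_pow 2 (by omega))
    have hv : a % 2 ^ (K + 1 - i) < 2 ^ (K + 1) :=
      lt_of_lt_of_le hm (Nat.pow_le_pow_right (by norm_num) (by omega))
    rw [← hmm]
    generalize hb : a % 2 ^ (K + 1 - i) = b at *
    rw [e, pow_succ] at hm
    by_cases hlt : b < 2 ^ (K + 1 - (i + 1))
    · rw [Nat.mod_eq_of_lt hlt]
      exact E.refl s ⟨le_rfl, hv⟩
    · have e2 : b = 2 ^ (K + 1 - (i + 1)) + (b - 2 ^ (K + 1 - (i + 1))) := by omega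
      have e3 : b % 2 ^ (K + 1 - (i + 1)) = b - 2 ^ (K + 1 - (i + 1)) := by
        conv_lhs => rw [e2]
        rw [Nat.add_mod_left, Nat.mod_eq_of_lt (by omega)]
      rw [e3]
      have := leaves' hs (by omega) h1 (γ := b - 2 ^ (K + 1 - (i + 1))) (by omega)
      rw [← e2] at this
      exact this.symm

end Run7.h781.CC.KZ
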