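import Pool.Agent.Run7.h781.CC.KZ2

/-!
# The hard family without input pairs: counting updates
-/

namespace Run7.h781.CC.KZ

open Run7.h781.CC LGraph

/-- A numbering of the vertices. -/
def code (L : ℕ) : T → ℕ
  | .w l a => 2 ^ l + a
  | .h l a => 2 ^ (L + 1) + (2 ^ l + a)
  | .v j l => 2 * 2 ^ (L + 1) + (2 ^ j + l)
  | .x j => 3 * 2 ^ (L + 1) + j
  | .r => 4 * 2 ^ (L + 1)
  | .d a => 5 * 2 ^ (L + 1) + a

/-- the block of a vertex -/
def blk : T → ℕ
  | .w _ _ => 0
  | .h _ _ => 1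
  | .v _ _ => 2
  | .x _ => 3
  | .r => 4
  | .d _ => 5

theorem pow_add_inj {l a l' a' : ℕ} (h : 2 ^ l + a = 2 ^ l' + a') (ha : a < 2 ^ l)
    (ha' : a' < 2 ^ l') : l = l' ∧ a = a' := by
  have key : ∀ {l a l' a' : ℕ}, 2 ^ l + a = 2 ^ l' + a' → a < 2 ^ l → ¬ l < l' := by
    intro l a l' a' h ha hlt
    have h1 : 2 ^ (l + 1) ≤ 2 ^ l' := Nat.pow_le_pow_right (by norm_num) hlt
    rw [pow_succ] at h1
    omega
  have h1 : l = l' := by
    rcases lt_trichotomy l l' with h1 | h1 | h1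
    · exact absurd h1 (key h ha)
    · exact h1
    · exact absurd h1 (key h.symm ha')
  subst h1
  exact ⟨rfl, by omega⟩

theorem pow_add_lt {l a L : ℕ} (h : l ≤ L) (ha : a < 2 ^ l) : 2 ^ l + a < 2 ^ (L + 1) := by
  have h1 : 2 ^ (l + 1) ≤ 2 ^ (L + 1) := Nat.pow_le_pow_right (by norm_num) (by omega)
  rw [pow_succ] at h1
  omega

theorem code_blk {L : ℕ} {t : T} (ht : Valid L t) :
    blk t * 2 ^ (L + 1) ≤ code L t ∧ code L t < (blk t + 1) * 2 ^ (L + 1) := by
  cases t with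
  | w l a =>
    have := pow_add_lt ht.1 ht.2
    have h0 : 0 < 2 ^ l := by positivity
    simp only [code, blk]; omega
  | h l a =>
    have := pow_add_lt ht.1.le ht.2
    have h0 : 0 < 2 ^ l := by positivity
    simp only [code, blk]; omega
  | v j l =>
    have : l < 2 ^ j := lt_trans ht.2.2 Nat.lt_two_pow_self
    have := pow_add_lt ht.2.1.le this; simp only [code, blk]; omega
  | x j =>
    have h1 : L + 1 < 2 ^ (L + 1) := Nat.lt_two_pow_self
    have := ht.2
    simp only [code, blk]; omega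
  | r =>
    have h1 : 0 < 2 ^ (L + 1) := by positivity
    simp only [code, blk]; omega
  | d a =>
    have h1 : 2 ^ (L + 1) = 2 ^ L * 2 := pow_succ _ _
    have : a < 2 ^ L := ht
    simp only [code, blk]; omega

theorem code_inj {L : ℕ} {t u : T} (ht : Valid L t) (hu : Valid L u) (h : code L t = code L u) :
    t = u := by
  have h1 := code_blk ht
  have h2 := code_blk hu
  rw [h] at h1
  have hb : blk t = blk u := by
    have h3 : 0 < 2 ^ (L + 1) := by positivity
    have h4 : blk t < blk u + 1 := Nat.lt_of_mul_lt_mul_right (lt_of_le_of_lt h1.1 h2.2)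
    have h5 : blk u < blk t + 1 := Nat.lt_of_mul_lt_mul_right (lt_of_le_of_lt h2.1 h1.2)
    omega
  cases t <;> cases u <;> simp only [blk] at hb <;> simp only [code] at h <;>
    first
    | omega
    | skip
  · obtain ⟨rfl, rfl⟩ := pow_add_inj h ht.2 hu.2; rfl
  · obtain ⟨rfl, rfl⟩ := pow_add_inj (Nat.add_left_cancel h) ht.2 hu.2; rfl
  · obtain ⟨rfl, rfl⟩ := pow_add_inj (Nat.add_left_cancel h)
      (lt_trans ht.2.2 Nat.lt_two_pow_self) (lt_trans hu.2.2 Nat.lt_two_pow_self)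
    rfl
  · rw [Nat.add_left_cancel h]
  · rfl
  · rw [Nat.add_left_cancel h]

theorem blk_lt (t : T) : blk t < 6 := by cases t <;> simp [blk]

/-- The numbering as an embedding into an initial segment. -/
def emb (K : ℕ) (v : VV K) : Fin (24 * 2 ^ K) :=
  ⟨code (K + 1) v.1, by
    have h1 := (code_blk v.2).2
    have h2 := blk_lt v.1
    have h3 : (blk v.1 + 1) * 2 ^ (K + 1 + 1) ≤ 6 * 2 ^ (K + 1 + 1) :=
      Nat.mul_le_mul_right _ (by omega)
    have h4 : 6 * 2 ^ (K + 1 + 1) = 24 * 2 ^ K := by ring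
    omega⟩

theorem emb_inj (K : ℕ) : Function.Injective (emb K) := by
  intro u v h
  have : code (K + 1) u.1 = code (K + 1) v.1 := congrArg Fin.val h
  exact Subtype.ext (code_inj u.2 v.2 this)

theorem finite_VV (K : ℕ) : Finite (VV K) := Finite.of_injective _ (emb_inj K)

variable {K : ℕ}

/-- the pair number `γ` of stage `i` is united -/
def Mg (s : Setoid (VV K)) (i γ : ℕ) : Prop :=
  E s (.w (K + 1) γ) (.w (K + 1) (2 ^ (K + 1 - i) + γ))

theorem stage_of {s s' : Setoid (VV K)} (hs : Inv s) (h : Step s s') {i γ : ℕ} (hi : 1 ≤ i)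
    (hiK : i ≤ K) (hγ : γ < 2 ^ (K + 1 - i)) (hn : Mg s' i γ) : E s (.x i) .r := by
  have h1 := (h.cong _ _ hn).2
  simp only [out, List.forall₂_cons, List.Forall₂.nil, and_true] at h1
  have e : K + 1 - i = (K - i) + 1 := by omega
  have h2 := h1.1
  rw [e, pow_succ] at h2 hγ
  refine (down hs.bis hi K hiK (γ / 2) (by omega) ?_).symm
  convert h2 using 2
  omega

theorem stage_done {s : Setoid (VV K)} (hs : ∀ t u, E s t u → CE s t u) {i : ℕ} (hi : 1 ≤ i)
    (h : E s (.x (i + 1)) .r) {γ : ℕ} (hγ : γ < 2 ^ (K + 1 - i)) : Mg s i γ :=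
  leaves' hs hi h hγ

open Classical in
/-- The number of united pairs of stage `i`. -/
noncomputable def cnt (s : Setoid (VV K)) (i : ℕ) : ℕ :=
  ((Finset.range (2 ^ (K + 1 - i))).filter (fun γ => Mg s i γ)).card

open Classical in
/-- the newly united pairs of stage `i` -/
noncomputable def nw (s s' : Setoid (VV K)) (i : ℕ) : Finset ℕ :=
  (Finset.range (2 ^ (K + 1 - i))).filter (fun γ => Mg s' i γ ∧ ¬ Mg s i γ)

theorem Mg.mono {s s' : Setoid (VV K)} (hs : s ≤ s') {i γ : ℕ} (h : Mg s i γ) : Mg s' i γ :=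
  E.mono hs h

theorem cnt_eq {s s' : Setoid (VV K)} (hs : s ≤ s') (i : ℕ) :
    cnt s' i = cnt s i + (nw s s' i).card := by
  classical
  unfold cnt nw
  rw [← Finset.card_union_of_disjoint]
  · congr 1
    ext γ
    simp only [Finset.mem_filter, Finset.mem_range, Finset.mem_union]
    constructor
    · rintro ⟨h1, h2⟩
      by_cases h3 : Mg s i γ
      · exact Or.inl ⟨h1, h3⟩
      · exact Or.inr ⟨h1, h2, h3⟩
    · rintro (⟨h1, h2⟩ | ⟨h1, h2, h3⟩)
      · exact ⟨h1, h2.mono hs⟩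
      · exact ⟨h1, h2⟩
  · rw [Finset.disjoint_left]
    intro γ h1 h2
    simp only [Finset.mem_filter, Finset.mem_range] at h1 h2
    exact h2.2.2 h1.2

/-- the potential -/
noncomputable def Psi (s : Setoid (VV K)) : ℕ :=
  ∑ i ∈ Finset.Icc 1 K, 2 ^ (i - 1) * cnt s i

/-- the other dummy with the same label -/
def mate (a : ℕ) : ℕ := if a % 2 = 0 then a + 1 else a - 1

theorem mate_half (a : ℕ) : mate a / 2 = a / 2 := by
  unfold mate; split_ifs <;> omega

theorem mate_ne (a : ℕ) : mate a ≠ a := by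
  unfold mate; split_ifs <;> omega

theorem mate_lt {a : ℕ} (h : a < 2 ^ (K + 1)) : mate a < 2 ^ (K + 1) := by
  rw [pow_succ] at *
  unfold mate; split_ifs <;> omega

theorem half_mate {a b : ℕ} (h : a / 2 = b / 2) (hne : a ≠ b) : a % 2 ≠ b % 2 := by omega

/-- In the closure everything of the first tree is united. -/
def ClosureFact (K : ℕ) : Prop := ∀ a b, a < 2 ^ (K + 1) → b < 2 ^ (K + 1) →
  E ((GK K).closure []) (.w (K + 1) a) (.w (K + 1) b)

theorem updates_ge (hC : ClosureFact K) {f g : VV K → ℕ} (hs : Inv (Setoid.ker f))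
    (h : Step (Setoid.ker f) (Setoid.ker g)) {i : ℕ} (hi : 1 ≤ i) (hiK : i ≤ K)
    (hx : E (Setoid.ker f) (.x i) .r) (hne : (nw (Setoid.ker f) (Setoid.ker g) i).Nonempty) :
    2 ^ (i - 1) * (nw (Setoid.ker f) (Setoid.ker g) i).card ≤
      (GK K).updates [] f g := by
  classical
  set s := Setoid.ker f with hsdef
  set s' := Setoid.ker g with hs'def
  obtain ⟨c, hc, hc1, hc2⟩ := hs.up
  have hcK : c < K + 1 := by
    by_contra hcon
    have hc' : c = K + 1 := by omega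
    obtain ⟨γ, hγ⟩ := hne
    simp only [nw, Finset.mem_filter, Finset.mem_range] at hγ
    have h1 := hc2 (i + 1) (by omega) (by omega)
    exact hγ.2.2 (stage_done hs.bis hi h1 hγ.1)
  -- names
  let nf' : ℕ → ℕ := fun a => if ha : a < 2 ^ (K + 1) then f ⟨.w (K + 1) a, le_rfl, ha⟩ else 0
  let ng' : ℕ → ℕ := fun a => if ha : a < 2 ^ (K + 1) then g ⟨.w (K + 1) a, le_rfl, ha⟩ else 0
  have e1 : K + 1 - (i - 1) = (K + 1 - i) + 1 := by omega
  have hP : (2 : ℕ) ^ (i - 1) * 2 ^ (K + 1 - i + 1) = 2 ^ (K + 1) := by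
    rw [← pow_add]; congr 1; omega
  have hQ : (2 : ℕ) ^ (K + 1 - i + 1) = 2 * 2 ^ (K + 1 - i) := by rw [pow_succ]; ring
  have hQpos : 0 < 2 ^ (K + 1 - i) := by positivity
  have hfull : ∀ a, a < 2 ^ (K + 1) →
      nf' a = nf' (a % 2 ^ (K + 1 - i + 1)) ∧ ng' a = ng' (a % 2 ^ (K + 1 - i + 1)) := by
    intro a ha
    have h1 := full hs.bis hx (i - 1) (by omega) a ha
    rw [e1] at h1
    have hm : a % 2 ^ (K + 1 - i + 1) < 2 ^ (K + 1) :=
      lt_of_le_of_lt (Nat.mod_le _ _) ha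
    obtain ⟨p1, p2, p3⟩ := h1
    have p4 := h.le p3
    simp only [nf', ng', dif_pos ha, dif_pos hm]
    exact ⟨p3, p4⟩
  -- the side whose name changes
  have hside : ∀ γ ∈ nw s s' i, ∃ δ, δ % 2 ^ (K + 1 - i) = γ ∧ δ < 2 ^ (K + 1 - i + 1) ∧
      nf' δ ≠ ng' δ := by
    intro γ hγ
    simp only [nw, Finset.mem_filter, Finset.mem_range] at hγ
    obtain ⟨g1, g2, g3⟩ := hγ
    have hle : 2 ^ (K + 1 - i + 1) ≤ 2 ^ (K + 1) := Nat.pow_le_pow_right (by norm_num) (by omega)
    have v1 : γ < 2 ^ (K + 1) := by omega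
    have v2 : 2 ^ (K + 1 - i) + γ < 2 ^ (K + 1) := by omega
    have q2 : ng' γ = ng' (2 ^ (K + 1 - i) + γ) := by
      obtain ⟨_, _, p3⟩ := g2
      simp only [ng', dif_pos v1, dif_pos v2]
      exact p3
    have q1 : nf' γ ≠ nf' (2 ^ (K + 1 - i) + γ) := by
      intro hcon
      apply g3
      simp only [nf', dif_pos v1, dif_pos v2] at hcon
      exact ⟨⟨le_rfl, v1⟩, ⟨le_rfl, v2⟩, hcon⟩
    by_cases hh : nf' γ = ng' γ
    · refine ⟨2 ^ (K + 1 - i) + γ, ?_, by omega, ?_⟩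
      · rw [Nat.add_mod_left, Nat.mod_eq_of_lt g1]
      · intro hcon
        exact q1 (by rw [hh, q2, hcon])
    · exact ⟨γ, Nat.mod_eq_of_lt g1, by omega, hh⟩
  choose! δ hδ1 hδ2 hδ3 using hside
  let A : Finset (ℕ × ℕ) := Finset.range (2 ^ (i - 1)) ×ˢ nw s s' i
  let pos : ℕ × ℕ → ℕ := fun p => δ p.2 + p.1 * 2 ^ (K + 1 - i + 1)
  have hpos : ∀ p ∈ A, pos p < 2 ^ (K + 1) := by
    intro p hp
    simp only [A, Finset.mem_product, Finset.mem_range] at hp
    have h1 := hδ2 p.2 hp.2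
    have h2 : (p.1 + 1) * 2 ^ (K + 1 - i + 1) ≤ 2 ^ (i - 1) * 2 ^ (K + 1 - i + 1) :=
      Nat.mul_le_mul_right _ hp.1
    rw [hP, add_mul, one_mul] at h2
    show δ p.2 + p.1 * 2 ^ (K + 1 - i + 1) < _
    omega
  have hmod : ∀ p ∈ A, pos p % 2 ^ (K + 1 - i + 1) = δ p.2 := by
    intro p hp
    simp only [A, Finset.mem_product, Finset.mem_range] at hp
    show (δ p.2 + p.1 * 2 ^ (K + 1 - i + 1)) % _ = _
    rw [Nat.add_mul_mod_self_right, Nat.mod_eq_of_lt (hδ2 p.2 hp.2)]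
  have hinj : Set.InjOn pos A := by
    intro p hp q hq hpq
    have h1 := hmod p hp
    have h2 := hmod q hq
    rw [hpq, h2] at h1
    have hp' := hp
    have hq' := hq
    simp only [A, Finset.coe_product, Set.mem_prod, Finset.mem_coe, Finset.mem_range] at hp' hq'
    have h3 := hδ1 p.2 hp'.2
    have h4 := hδ1 q.2 hq'.2
    rw [← h1, h4] at h3
    have h5 : p.1 * 2 ^ (K + 1 - i + 1) = q.1 * 2 ^ (K + 1 - i + 1) := by
      have : δ p.2 + p.1 * 2 ^ (K + 1 - i + 1) = δ q.2 + q.1 * 2 ^ (K + 1 - i + 1) := hpq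
      rw [h1] at this
      omega
    have h6 : p.1 = q.1 := Nat.eq_of_mul_eq_mul_right (by positivity) h5
    exact Prod.ext h6 h3.symm
  let dm : ℕ → ℕ × List ℕ := fun a => (4 + a / 2, [nf' a])
  have hdinj : ∀ a b, a < 2 ^ (K + 1) → b < 2 ^ (K + 1) → dm a = dm b → a = b := by
    intro a b ha hb hab
    by_contra hne'
    simp only [dm, Prod.mk.injEq, List.cons.injEq, and_true] at hab
    have h1 := half_mate (by omega) hne'
    have h2 : E s (.w (K + 1) a) (.w (K + 1) b) := by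
      refine ⟨⟨le_rfl, ha⟩, ⟨le_rfl, hb⟩, ?_⟩
      have := hab.2
      simp only [nf', dif_pos ha, dif_pos hb] at this
      exact this
    have h3 := hc1 _ _ h2
    rw [nf_w, nf_w] at h3
    have h4 : a % 2 ^ (K + 1 - c) = b % 2 ^ (K + 1 - c) := by
      simpa using h3
    have e5 : K + 1 - c = (K - c) + 1 := by omega
    rw [e5, mod_succ, mod_succ] at h4
    omega
  have hcard : (A.image (fun p => dm (pos p))).card = A.card := by
    apply Finset.card_image_of_injOn
    intro p hp q hq hpq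
    exact hinj hp hq (hdinj _ _ (hpos p hp) (hpos q hq) hpq)
  have hAcard : A.card = 2 ^ (i - 1) * (nw s s' i).card := by
    simp [A, Finset.card_product]
  rw [← hAcard, ← hcard, ← Set.ncard_coe_finset]
  have hfin : {σ | ∃ w, (GK K).Pending [] (Setoid.ker f) w ∧ (GK K).sig g w ≠ (GK K).sig f w ∧
      σ = (GK K).sig f w}.Finite := by
    have : Finite (VV K) := finite_VV K
    apply (Set.finite_range (fun w => (GK K).sig f w)).subset
    rintro σ ⟨w, _, _, rfl⟩
    exact ⟨w, rfl⟩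
  refine Set.ncard_le_ncard ?_ hfin
  intro σ hσ
  simp only [Finset.coe_image, Set.mem_image, Finset.mem_coe] at hσ
  obtain ⟨p, hp, rfl⟩ := hσ
  have ha := hpos p hp
  have hm := mate_lt ha
  have hsig : ∀ (k : VV K → ℕ), (GK K).sig k ⟨.d (pos p), ha⟩ =
      (4 + pos p / 2, [k ⟨.w (K + 1) (pos p), le_rfl, ha⟩]) := by
    intro k
    rfl
  refine ⟨⟨.d (pos p), ha⟩, ⟨⟨.d (mate (pos p)), hm⟩, ?_, ?_, ?_, ?_⟩, ?_, ?_⟩
  · show 4 + mate (pos p) / 2 = 4 + pos p / 2
    rw [mate_half]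
  · rfl
  · apply closure_closed
    rw [cong_iff]
    refine ⟨?_, ?_⟩
    · show 4 + pos p / 2 = 4 + mate (pos p) / 2
      rw [mate_half]
    · exact List.Forall₂.cons (hC _ _ ha hm) List.Forall₂.nil
  · intro hcon
    have h1 : E s (.d (pos p)) (.d (mate (pos p))) := ⟨ha, hm, hcon⟩
    have h2 := hc1 _ _ h1
    rw [nf_d, nf_d, if_pos hcK, if_pos hcK] at h2
    exact mate_ne _ (by simpa using h2.symm)
  · rw [hsig, hsig]
    intro hcon
    have h1 : g ⟨.w (K + 1) (pos p), le_rfl, ha⟩ = f ⟨.w (K + 1) (pos p), le_rfl, ha⟩ := by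
      simpa using hcon
    have h2 : ng' (pos p) = nf' (pos p) := by
      simp only [nf', ng', dif_pos ha]
      exact h1
    have h3 := hfull (pos p) ha
    rw [hmod p hp] at h3
    have hp2 : p.2 ∈ nw s s' i := by
      simp only [A, Finset.mem_product] at hp
      exact hp.2
    apply hδ3 p.2 hp2
    rw [← h3.1, ← h3.2, h2]
  · rw [hsig]
    simp only [dm, nf', dif_pos ha]

end Run7.h781.CC.KZ
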