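import Pool.Agent.Run7.h781.CC.KZ3

/-!
# The hard family without input pairs: the closure and the lower bound
-/

namespace Run7.h781.CC.KZ

open Run7.h781.CC LGraph

variable {K : ℕ}

theorem psi_step (hC : ClosureFact K) {f g : VV K → ℕ} (hs : Inv (Setoid.ker f))
    (h : Step (Setoid.ker f) (Setoid.ker g)) :
    Psi (Setoid.ker g) ≤ Psi (Setoid.ker f) + (GK K).updates [] f g := by
  classical
  by_cases hex : ∃ i ∈ Finset.Icc 1 K, (nw (Setoid.ker f) (Setoid.ker g) i).Nonempty
  · obtain ⟨i, hi, hne⟩ := hex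
    rw [Finset.mem_Icc] at hi
    have hst : ∀ j, 1 ≤ j → j ≤ K → (nw (Setoid.ker f) (Setoid.ker g) j).Nonempty →
        E (Setoid.ker f) (.x j) .r := by
      rintro j hj1 hj2 ⟨γ, hγ⟩
      simp only [nw, Finset.mem_filter, Finset.mem_range] at hγ
      exact stage_of hs h hj1 hj2 hγ.1 hγ.2.1
    have huniq : ∀ j j', 1 ≤ j → j < j' → j' ≤ K →
        (nw (Setoid.ker f) (Setoid.ker g) j).Nonempty →
        (nw (Setoid.ker f) (Setoid.ker g) j').Nonempty → False := by
      intro j j' h1 h2 h3 h4 h5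
      have h6 := hst j' (by omega) h3 h5
      have h7 := prevs hs.bis h6 (j + 1) (by omega) (by omega)
      obtain ⟨γ, hγ⟩ := h4
      simp only [nw, Finset.mem_filter, Finset.mem_range] at hγ
      exact hγ.2.2 (stage_done hs.bis h1 h7 hγ.1)
    have hother : ∀ j ∈ Finset.Icc 1 K, j ≠ i → nw (Setoid.ker f) (Setoid.ker g) j = ∅ := by
      intro j hj hji
      rw [Finset.mem_Icc] at hj
      by_contra hcon
      have hne' : (nw (Setoid.ker f) (Setoid.ker g) j).Nonempty :=
        Finset.nonempty_iff_ne_empty.2 hcon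
      rcases Nat.lt_or_gt_of_ne hji with h1 | h1
      · exact huniq j i hj.1 h1 hi.2 hne' hne
      · exact huniq i j hi.1 h1 hj.2 hne hne'
    have hup := updates_ge hC hs h hi.1 hi.2 (hst i hi.1 hi.2 hne) hne
    have hi' : i ∈ Finset.Icc 1 K := Finset.mem_Icc.2 hi
    unfold Psi
    rw [← Finset.add_sum_erase _ _ hi', ← Finset.add_sum_erase _ _ hi']
    have h1 : ∑ x ∈ (Finset.Icc 1 K).erase i, 2 ^ (x - 1) * cnt (Setoid.ker g) x =
        ∑ x ∈ (Finset.Icc 1 K).erase i, 2 ^ (x - 1) * cnt (Setoid.ker f) x := by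
      apply Finset.sum_congr rfl
      intro x hx
      rw [Finset.mem_erase] at hx
      rw [cnt_eq h.le, hother x hx.2 hx.1]
      simp
    rw [h1, cnt_eq h.le i, mul_add]
    omega
  · push Not at hex
    have : Psi (Setoid.ker g) = Psi (Setoid.ker f) := by
      unfold Psi
      apply Finset.sum_congr rfl
      intro x hx
      rw [cnt_eq h.le, hex x hx]
      simp
    omega

theorem hist_psi (hC : ClosureFact K) {f : VV K → ℕ} {t : ℕ} (h : Hist (GK K) [] f t) :
    Inv (Setoid.ker f) ∧ Psi (Setoid.ker f) ≤ t := by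
  classical
  induction h with
  | start f hf =>
    have e : Setoid.ker f = ⊥ := by
      apply Setoid.ext
      intro a b
      constructor
      · intro h; exact hf h
      · intro h; exact congrArg f h
    rw [e]
    refine ⟨inv_bot, ?_⟩
    unfold Psi
    have : ∀ i ∈ Finset.Icc 1 K, 2 ^ (i - 1) * cnt (⊥ : Setoid (VV K)) i = 0 := by
      intro i _
      have h0 : cnt (⊥ : Setoid (VV K)) i = 0 := by
        unfold cnt
        rw [Finset.card_eq_zero, Finset.filter_eq_empty_iff]
        rintro γ _ ⟨h1, h2, h3⟩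
        have h4 := congrArg Subtype.val h3
        simp only [T.w.injEq, true_and] at h4
        have : 0 < 2 ^ (K + 1 - i) := by positivity
        omega
      rw [h0, mul_zero]
    rw [Finset.sum_eq_zero this]
  | step h S hS g hg ih =>
    obtain ⟨h1, h2⟩ := ih
    have h3 := step_of h1 hS hg
    exact ⟨inv_step h1 h3, (psi_step hC h1 h3).trans (by omega)⟩

/-! ### The closure -/

/-- abbreviation -/
abbrev CL (K : ℕ) : Setoid (VV K) := (GK K).closure []

theorem cl_of {t u : T} (ht : Valid (K + 1) t) (hu : Valid (K + 1) u) (h : CE (CL K) t u) :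
    E (CL K) t u := by
  refine ⟨ht, hu, ?_⟩
  apply closure_closed
  rw [cong_iff]
  exact h

theorem cl_w {j : ℕ} (hx : ∀ i, 1 ≤ i → i ≤ j → E (CL K) (.x i) .r) :
    ∀ l, l ≤ K + 1 → ∀ a b, a < 2 ^ l → b < 2 ^ l → a % 2 ^ (l - j) = b % 2 ^ (l - j) →
      E (CL K) (.w l a) (.w l b) := by
  intro l
  induction l with
  | zero =>
    intro hl a b ha hb _
    have : a = b := by simp at ha hb; omega
    subst this
    exact E.refl _ ⟨hl, ha⟩
  | succ l ih =>
    intro hl a b ha hb hab
    have ha' := ha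
    have hb' := hb
    rw [pow_succ] at ha' hb'
    refine cl_of ⟨hl, ha⟩ ⟨hl, hb⟩ ⟨rfl, ?_⟩
    simp only [out, List.forall₂_cons, List.Forall₂.nil, and_true]
    by_cases hlj : l + 1 ≤ j
    · refine ⟨ih (by omega) _ _ (by omega) (by omega) ?_, ?_⟩
      · have : l - j = 0 := by omega
        rw [this]; simp [Nat.mod_one]
      · have h1 : ∀ c, E (CL K) (sw (l + 1) c) .r := by
          intro c
          unfold sw
          split_ifs
          · exact E.refl _ trivial
          · exact hx _ (by omega) hlj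
        exact (h1 a).trans (h1 b).symm
    · have e : l + 1 - j = (l - j) + 1 := by omega
      rw [e, mod_succ, mod_succ] at hab
      have h1 : a % 2 = b % 2 := by omega
      have h2 : a / 2 % 2 ^ (l - j) = b / 2 % 2 ^ (l - j) := by omega
      refine ⟨ih (by omega) _ _ (by omega) (by omega) h2, ?_⟩
      unfold sw
      rw [h1]
      split_ifs
      · exact E.refl _ trivial
      · exact E.refl _ ⟨by omega, hl⟩

theorem cl_W {j : ℕ} (hx : ∀ i, 1 ≤ i → i ≤ j → E (CL K) (.x i) .r) :
    ∀ n l, l + n = K + 1 → ∀ a b, a < 2 ^ l → b < 2 ^ l → a % 2 ^ (l - j) = b % 2 ^ (l - j) →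
      E (CL K) (WW (K + 1) l a) (WW (K + 1) l b) := by
  intro n
  induction n with
  | zero =>
    intro l hl a b ha hb hab
    have : l = K + 1 := by omega
    subst this
    unfold WW
    rw [if_pos rfl, if_pos rfl]
    exact cl_w hx _ le_rfl a b ha hb hab
  | succ n ih =>
    intro l hl a b ha hb hab
    have hva : Valid (K + 1) (WW (K + 1) l a) := valid_WW (by omega) ha
    have hvb : Valid (K + 1) (WW (K + 1) l b) := valid_WW (by omega) hb
    have e : ∀ c, WW (K + 1) l c = .h l c := fun c => if_neg (by omega)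
    rw [e] at hva hvb
    rw [e, e]
    refine cl_of hva hvb ⟨rfl, ?_⟩
    simp only [out, List.forall₂_cons, List.Forall₂.nil, and_true]
    have h2 : 2 * a % 2 ^ (l + 1 - j) = 2 * b % 2 ^ (l + 1 - j) ∧
        (2 * a + 1) % 2 ^ (l + 1 - j) = (2 * b + 1) % 2 ^ (l + 1 - j) := by
      by_cases hlj : l + 1 ≤ j
      · have : l + 1 - j = 0 := by omega
        rw [this]; simp [Nat.mod_one]
      · have e2 : l + 1 - j = (l - j) + 1 := by omega
        rw [e2, mod_succ, mod_succ, mod_succ, mod_succ]
        have e3 : 2 * a / 2 = a := by omega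
        have e4 : 2 * b / 2 = b := by omega
        have e5 : (2 * a + 1) / 2 = a := by omega
        have e6 : (2 * b + 1) / 2 = b := by omega
        rw [e3, e4, e5, e6, hab]
        constructor <;> omega
    exact ⟨ih (l + 1) (by omega) _ _ (by rw [pow_succ]; omega) (by rw [pow_succ]; omega) h2.1,
      ih (l + 1) (by omega) _ _ (by rw [pow_succ]; omega) (by rw [pow_succ]; omega) h2.2⟩

theorem cl_v {j : ℕ} (hj1 : 1 ≤ j) (hj : j < K + 1)
    (hx : ∀ i, 1 ≤ i → i ≤ j → E (CL K) (.x i) .r) :
    ∀ n l, l + 1 + n = j → E (CL K) (.v j l) (.h l 0) := by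
  intro n
  have hp : ∀ m : ℕ, 0 < 2 ^ m := fun m => by positivity
  induction n with
  | zero =>
    intro l hl
    have hl' : l + 1 = j := by omega
    refine cl_of ⟨hj1, hj, by omega⟩ ⟨by omega, hp l⟩ ⟨rfl, ?_⟩
    have h1 : 1 < 2 ^ j := by rw [← hl', pow_succ]; have := hp l; omega
    simp only [out, hl', if_true, List.forall₂_cons, List.Forall₂.nil, and_true, Nat.mul_zero,
      Nat.zero_add]
    refine ⟨E.refl _ (valid_WW (by omega) (hp j)), ?_⟩
    refine cl_W hx (K + 1 - j) j (by omega) 0 1 (hp j) h1 ?_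
    simp [Nat.mod_one]
  | succ n ih =>
    intro l hl
    refine cl_of ⟨hj1, hj, by omega⟩ ⟨by omega, hp l⟩ ⟨rfl, ?_⟩
    have h1 : 1 < 2 ^ (l + 1) := by rw [pow_succ]; have := hp l; omega
    simp only [out, if_neg (show ¬ l + 1 = j by omega), List.forall₂_cons, List.Forall₂.nil,
      and_true, Nat.mul_zero, Nat.zero_add]
    have e : WW (K + 1) (l + 1) 0 = .h (l + 1) 0 := if_neg (by omega)
    rw [e]
    exact ⟨ih (l + 1) (by omega), E.refl _ (valid_WW (by omega) h1)⟩

theorem cl_x : ∀ j, j ≤ K + 1 → ∀ i, 1 ≤ i → i ≤ j → E (CL K) (.x i) .r := by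
  intro j
  induction j with
  | zero => intro _ i h1 h2; omega
  | succ j ih =>
    intro hj i h1 h2
    by_cases hi : i ≤ j
    · exact ih (by omega) i h1 hi
    · have hi' : i = j + 1 := by omega
      subst hi'
      refine cl_of ⟨by omega, hj⟩ trivial ⟨rfl, ?_⟩
      by_cases hj0 : j = 0
      · subst hj0
        simp only [out, Nat.zero_add, if_true, List.forall₂_cons, List.Forall₂.nil, and_true]
        exact E.refl _ (valid_WW (by omega) (by simp))
      · simp only [out, if_neg (show ¬ j + 1 = 1 by omega), List.forall₂_cons, List.Forall₂.nil,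
          and_true, Nat.add_sub_cancel]
        have e : WW (K + 1) 0 0 = .h 0 0 := if_neg (by omega)
        rw [e]
        exact cl_v (by omega) (by omega) (ih (by omega)) (j - 1) 0 (by omega)

theorem closureFact (K : ℕ) : ClosureFact K := by
  intro a b ha hb
  refine cl_w (j := K + 1) (cl_x (K + 1) le_rfl) (K + 1) le_rfl a b ha hb ?_
  simp [Nat.mod_one]

theorem psi_cl : Psi (CL K) = K * 2 ^ K := by
  classical
  unfold Psi
  have h1 : ∀ i ∈ Finset.Icc 1 K, 2 ^ (i - 1) * cnt (CL K) i = 2 ^ K := by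
    intro i hi
    rw [Finset.mem_Icc] at hi
    have h0 : cnt (CL K) i = 2 ^ (K + 1 - i) := by
      unfold cnt
      rw [Finset.filter_true_of_mem, Finset.card_range]
      intro γ hγ
      rw [Finset.mem_range] at hγ
      have h2 : 2 ^ (K + 1 - i) * 2 ≤ 2 ^ (K + 1) := by
        rw [← pow_succ]
        exact Nat.pow_le_pow_right (by norm_num) (by omega)
      exact closureFact K _ _ (by omega) (by omega)
    rw [h0, ← pow_add]
    congr 1; omega
  rw [Finset.sum_congr rfl h1]
  simp

theorem cost_ge {f : VV K → ℕ} {t : ℕ} (h : Hist (GK K) [] f t)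
    (hf : Setoid.ker f = (GK K).closure []) : K * 2 ^ K ≤ t := by
  have h1 := (hist_psi (closureFact K) h).2
  rw [hf, psi_cl] at h1
  exact h1

end Run7.h781.CC.KZ
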