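import Pool.Agent.Run7.h781.CC.Inv

/-!
# The lower bound on the hard family
-/

namespace Run7.h781.CC

open LGraph

variable {K : ℕ}

theorem P2_pos (w : ℕ) : 1 ≤ P2 w := Nat.one_le_two_pow

theorem P2_le {w : ℕ} (hw : 1 ≤ w) (h : w < LL K) : w + P2 w ≤ LL K := by
  obtain ⟨e, b, rfl⟩ := exists_rep (show w ≠ 0 by omega)
  rw [P2_eq]
  exact gap_pow h

theorem P2_le_self {w : ℕ} (hw : 1 ≤ w) : P2 w ≤ w := by
  obtain ⟨e, b, rfl⟩ := exists_rep (show w ≠ 0 by omega)
  rw [P2_eq]
  exact Nat.le_mul_of_pos_right _ (by omega)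

theorem P2_half {w : ℕ} (hw : 1 ≤ w) (h : w < LL K) (hne : w ≠ 2 ^ K) :
    w + P2 w ≤ 2 ^ K ∨ 2 ^ K + P2 w ≤ w := by
  obtain ⟨e, b, rfl⟩ := exists_rep (show w ≠ 0 by omega)
  rw [P2_eq]
  rcases lt_or_gt_of_ne hne with h1 | h1
  · exact Or.inl (gap_pow h1)
  · exact Or.inr (gap_pow' h1 h)

theorem P2_pow (K : ℕ) : P2 (2 ^ K) = 2 ^ K := by
  have := P2_eq K 0
  simpa using this

theorem prem_pos {s : Setoid (Fin (NN K))} {i : ℕ} (hi : 1 ≤ i) (h : Prem s i) :
    E s (pl i) (ph i) := by
  rcases h with h | h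
  · omega
  · exact h

theorem parts {s : Setoid (Fin (NN K))} (hs : Inv s) {w : ℕ} (hw : 1 ≤ w) (hL : w < LL K)
    (hp : Prem s (2 * w - 1)) :
    (∀ k, 4 * w ≤ k → k < 4 * w + 4 * P2 w - 3 → E s k (k + 1)) ∧
    (∀ k, 4 * (w - P2 w) ≤ k → k < 4 * w - 3 → E s k (k + 1)) := by
  have hM := MM_eq K
  have h1 := P2_le hw hL
  have h2 := P2_pos w
  have h3 := P2_le_self hw
  have e1 := prem_pos (by omega) hp
  rw [pl_int hw, ph_int hw] at e1
  have r1 := hs.i1 _ _ (by omega) (by omega) e1
  refine ⟨r1, ?_⟩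
  have e2 := r1 (4 * w) le_rfl (by omega)
  have e3 := hs.i4 (2 * w) (by omega) (by
    have : 2 * (2 * w) = 4 * w := by ring
    rw [this]; exact e2)
  have e4 := prem_pos (by omega) e3
  rw [pl_leaf, ph_leaf] at e4
  exact hs.i1 _ _ (by omega) (by omega) e4

/-- root event -/
def RootE (s : Setoid (Fin (NN K))) : Prop := E s (4 * 2 ^ K - 2) (4 * 2 ^ K - 1)

theorem half_done {s : Setoid (Fin (NN K))} (hs : Inv s) (h : RootE s) {k : ℕ}
    (hk : k + 1 < MM K) (h1 : k ≠ 4 * 2 ^ K - 3) (h2 : k ≠ 4 * 2 ^ K - 1) : E s k (k + 1) := by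
  have hM := MM_eq K
  have hL := LL_eq K
  have hpos : 1 ≤ 2 ^ K := Nat.one_le_two_pow
  have hp : Prem s (2 * 2 ^ K - 1) := by
    apply hs.i4 _ (by omega)
    unfold RootE at h
    convert h using 1 <;> omega
  obtain ⟨p1, p2⟩ := parts hs hpos (by omega) hp
  rw [P2_pow] at p1 p2
  rcases lt_trichotomy k (4 * 2 ^ K - 2) with hlt | heq | hgt
  · exact p2 k (by omega) (by omega)
  · subst heq
    unfold RootE at h
    convert h using 1; omega
  · exact p1 k (by omega) (by omega)

theorem out_dum {t : ℕ} (ht : t < LL K) : (GG K).out (fx K (MM K + t)) = [fx K (4 * t)] := by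
  have hN := NN_eq K
  show (outN K (fx K (MM K + t)).val).map (fx K) = _
  rw [fx_val (by omega)]
  unfold outN
  rw [if_neg (by omega)]
  simp

theorem lab_dum {t : ℕ} (ht : t < LL K) : (GG K).lab (fx K (MM K + t)) = MM K + t % 2 ^ K := by
  have hN := NN_eq K
  show labN K (fx K (MM K + t)).val = _
  rw [fx_val (by omega)]
  unfold labN
  rw [if_neg (by omega)]
  simp

theorem closure_dum {t t' : ℕ} (ht : t < LL K) (ht' : t' < LL K) (h : t % 2 ^ K = t' % 2 ^ K) :
    E ((GG K).closure (RR K)) (MM K + t) (MM K + t') := by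
  have hM := MM_eq K
  apply closure_closed
  refine ⟨?_, ?_⟩
  · rw [lab_dum ht, lab_dum ht', h]
  · rw [out_dum ht, out_dum ht']
    refine List.Forall₂.cons ?_ List.Forall₂.nil
    exact closure_path (by omega) (by omega)

theorem pending_dum {s : Setoid (Fin (NN K))} (hs : Inv s) (hroot : ¬ RootE s) {t : ℕ}
    (ht : t < LL K) : (GG K).Pending (RR K) s (fx K (MM K + t)) := by
  have hM := MM_eq K
  have hL := LL_eq K
  have hpos : 1 ≤ 2 ^ K := Nat.one_le_two_pow
  -- no class contains leaves of both halves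
  have sep : ∀ a b, a < 2 ^ K → 2 ^ K ≤ b → b < LL K → ¬ E s (4 * a) (4 * b) := by
    intro a b ha hb hb' h
    apply hroot
    have := hs.i1 (4 * a) (4 * b) (by omega) (by omega) h (4 * 2 ^ K - 2) (by omega) (by omega)
    unfold RootE
    convert this using 1; omega
  by_cases hh : t < 2 ^ K
  · refine ⟨fx K (MM K + (t + 2 ^ K)), ?_, ?_, ?_, ?_⟩
    · rw [lab_dum ht, lab_dum (by omega), Nat.add_mod_right]
    · rw [out_dum ht, out_dum (by omega)]; rfl
    · exact closure_dum ht (by omega) (by rw [Nat.add_mod_right])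
    · intro h
      rcases hs.i3 t (t + 2 ^ K) ht (by omega) h with h | h
      · omega
      · exact sep _ _ hh (by omega) (by omega) h
  · refine ⟨fx K (MM K + (t - 2 ^ K)), ?_, ?_, ?_, ?_⟩
    · rw [lab_dum ht, lab_dum (by omega)]
      congr 1
      conv_rhs => rw [show t = (t - 2 ^ K) + 2 ^ K by omega]
      rw [Nat.add_mod_right]
    · rw [out_dum ht, out_dum (by omega)]; rfl
    · apply closure_dum ht (by omega)
      conv_lhs => rw [show t = (t - 2 ^ K) + 2 ^ K by omega]
      rw [Nat.add_mod_right]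
    · intro h
      rcases hs.i3 t (t - 2 ^ K) ht (by omega) h with h | h
      · omega
      · exact sep (t - 2 ^ K) t (by omega) (by omega) ht h.symm

/-- If the names of the leaves `a, …, a + d - 1` of one half change, there are `d` updates. -/
theorem updates_ge {f g : Fin (NN K) → ℕ} (hs : Inv (Setoid.ker f))
    (hroot : ¬ RootE (Setoid.ker f)) {a d : ℕ}
    (had : a + d ≤ 2 ^ K ∨ (2 ^ K ≤ a ∧ a + d ≤ LL K))
    (hx : ∀ t, a ≤ t → t < a + d → g (fx K (4 * t)) ≠ f (fx K (4 * t))) :
    d ≤ (GG K).updates (RR K) f g := by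
  classical
  have hL := LL_eq K
  unfold updates
  have hsub : (((Finset.Ico a (a + d)).image (fun t => (GG K).sig f (fx K (MM K + t))) :
      Finset _) : Set _) ⊆ {σ | ∃ w, (GG K).Pending (RR K) (Setoid.ker f) w ∧
        (GG K).sig g w ≠ (GG K).sig f w ∧ σ = (GG K).sig f w} := by
    intro y hy
    rw [Finset.mem_coe, Finset.mem_image] at hy
    obtain ⟨t, ht, rfl⟩ := hy
    rw [Finset.mem_Ico] at ht
    refine ⟨fx K (MM K + t), pending_dum hs hroot (by omega), ?_, rfl⟩
    intro h
    apply hx t ht.1 ht.2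
    have h2 : ((GG K).out (fx K (MM K + t))).map g = ((GG K).out (fx K (MM K + t))).map f :=
      congrArg Prod.snd h
    rw [out_dum (by omega)] at h2
    simpa using h2
  have hcard : ((Finset.Ico a (a + d)).image (fun t => (GG K).sig f (fx K (MM K + t)))).card
      = d := by
    rw [Finset.card_image_of_injOn, Nat.card_Ico, Nat.add_sub_cancel_left]
    intro t ht t' ht' h
    rw [Finset.mem_coe, Finset.mem_Ico] at ht ht'
    have h1 : (GG K).lab (fx K (MM K + t)) = (GG K).lab (fx K (MM K + t')) :=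
      congrArg Prod.fst h
    rw [lab_dum (by omega), lab_dum (by omega)] at h1
    rcases had with h2 | ⟨h2, h3⟩
    · rw [Nat.mod_eq_of_lt (by omega), Nat.mod_eq_of_lt (by omega)] at h1
      omega
    · have e1 : t % 2 ^ K = t - 2 ^ K := by
        conv_lhs => rw [show t = (t - 2 ^ K) + 2 ^ K by omega]
        rw [Nat.add_mod_right, Nat.mod_eq_of_lt (by omega)]
      have e2 : t' % 2 ^ K = t' - 2 ^ K := by
        conv_lhs => rw [show t' = (t' - 2 ^ K) + 2 ^ K by omega]
        rw [Nat.add_mod_right, Nat.mod_eq_of_lt (by omega)]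
      omega
  have hfin : {σ | ∃ w, (GG K).Pending (RR K) (Setoid.ker f) w ∧
        (GG K).sig g w ≠ (GG K).sig f w ∧ σ = (GG K).sig f w}.Finite := by
    apply (Set.finite_range (fun w => (GG K).sig f w)).subset
    rintro σ ⟨w, _, _, rfl⟩
    exact ⟨w, rfl⟩
  calc d = Set.ncard (((Finset.Ico a (a + d)).image
        (fun t => (GG K).sig f (fx K (MM K + t))) : Finset _) : Set _) := by
        rw [Set.ncard_coe_finset, hcard]
    _ ≤ _ := Set.ncard_le_ncard hsub hfin

/-- the three joins at the inner node `w` are present -/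
def T3 (s : Setoid (Fin (NN K))) (w : ℕ) : Prop :=
  E s (4 * w - 3) (4 * w - 2) ∧ E s (4 * w - 2) (4 * w - 1) ∧ E s (4 * w - 1) (4 * w)

theorem dvd_P2_of_dvd {j x : ℕ} (hx : x ≠ 0) (h : 2 ^ j ∣ x) : 2 ^ j ∣ P2 x := by
  unfold P2
  apply pow_dvd_pow
  exact (padicValNat_dvd_iff_le hx).1 h

theorem P2_dvd {x : ℕ} (hx : x ≠ 0) : P2 x ∣ x := by
  obtain ⟨e, b, rfl⟩ := exists_rep hx
  rw [P2_eq]
  exact Dvd.intro _ rfl

theorem P2_total (x y : ℕ) : P2 x ∣ P2 y ∨ P2 y ∣ P2 x := by
  unfold P2
  rcases le_total (padicValNat 2 x) (padicValNat 2 y) with h | h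
  · exact Or.inl (pow_dvd_pow _ h)
  · exact Or.inr (pow_dvd_pow _ h)

/-- The event of a leaf requires everything before it. -/
theorem left_done {s : Setoid (Fin (NN K))} (hs : Inv s) {w : ℕ} (hw : 1 ≤ w) :
    ∀ a, w < a → a < LL K → E s (4 * a) (4 * a + 1) → a < w + P2 w ∨ T3 s w := by
  intro a
  induction a using Nat.strong_induction_on with
  | _ a ih =>
    intro hwa haL hev
    have hM := MM_eq K
    have ha : 1 ≤ a := by omega
    have h1 := P2_le_self ha
    have h2 := P2_pos a
    have e3 := hs.i4 (2 * a) (by omega) (by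
      have : 2 * (2 * a) = 4 * a := by ring
      rw [this]; exact hev)
    have e4 := prem_pos (by omega) e3
    rw [pl_leaf, ph_leaf] at e4
    have e5 := hs.i1 _ _ (by omega) (by omega) e4
    rcases lt_trichotomy w (a - P2 a) with h | h | h
    · -- the block left of `a` starts after `w`
      have hev0 := e5 (4 * (a - P2 a)) le_rfl (by omega)
      rcases ih (a - P2 a) (by omega) h (by omega) hev0 with h3 | h3
      · left
        have ha0 : a - P2 a ≠ 0 := by omega
        have hnd : ¬ P2 w ∣ a - P2 a := by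
          intro hd
          have := mult_gap (P2_dvd (show w ≠ 0 by omega)) hd h
          omega
        have hdv : P2 (a - P2 a) ∣ P2 w := by
          rcases P2_total (a - P2 a) w with h4 | h4
          · exact h4
          · exact absurd (h4.trans (P2_dvd ha0)) hnd
        have hdv2 : P2 (a - P2 a) ∣ w + P2 w := by
          rcases P2_total (a - P2 a) w with h4 | h4
          · obtain ⟨e, b, hb⟩ := exists_rep (show w ≠ 0 by omega)
            have : P2 w ∣ w := P2_dvd (by omega)
            exact Dvd.dvd.add (h4.trans this) h4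
          · exact absurd (h4.trans (P2_dvd ha0)) hnd
        have h5 := mult_gap (P2_dvd ha0) hdv2 h3
        have h6 : P2 a < P2 (a - P2 a) := by
          obtain ⟨e, b, hb⟩ := exists_rep (show a ≠ 0 by omega)
          have hPa : P2 a = 2 ^ e := by rw [hb, P2_eq]
          have hsub : a - P2 a = 2 ^ (e + 1) * b := by
            rw [hPa, hb, pow_succ]
            have : 2 ^ e * (2 * b + 1) = 2 ^ e * 2 * b + 2 ^ e := by ring
            rw [this, Nat.add_sub_cancel]
          have h7 : 2 ^ (e + 1) ∣ P2 (a - P2 a) := by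
            apply dvd_P2_of_dvd ha0
            rw [hsub]; exact Dvd.intro _ rfl
          have h8 := Nat.le_of_dvd (P2_pos _) h7
          rw [hPa]
          rw [hPa] at h8
          have h9 : 2 ^ (e + 1) = 2 * 2 ^ e := by rw [pow_succ]; ring
          have h10 : 1 ≤ 2 ^ e := Nat.one_le_two_pow
          omega
        omega
      · exact Or.inr h3
    · left
      have ha0 : a - P2 a ≠ 0 := by omega
      have h6 : P2 a < P2 w := by
        obtain ⟨e, b, hb⟩ := exists_rep (show a ≠ 0 by omega)
        have hPa : P2 a = 2 ^ e := by rw [hb, P2_eq]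
        have hsub : a - P2 a = 2 ^ (e + 1) * b := by
          rw [hPa, hb, pow_succ]
          have : 2 ^ e * (2 * b + 1) = 2 ^ e * 2 * b + 2 ^ e := by ring
          rw [this, Nat.add_sub_cancel]
        have h7 : 2 ^ (e + 1) ∣ P2 (a - P2 a) := by
          apply dvd_P2_of_dvd ha0
          rw [hsub]; exact Dvd.intro _ rfl
        have h8 := Nat.le_of_dvd (P2_pos _) h7
        rw [← h] at h8
        rw [hPa]
        have h9 : 2 ^ (e + 1) = 2 * 2 ^ e := by rw [pow_succ]; ring
        have h10 : 1 ≤ 2 ^ e := Nat.one_le_two_pow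
        omega
      omega
    · right
      refine ⟨?_, ?_, ?_⟩
      · have := e5 (4 * w - 3) (by omega) (by omega)
        convert this using 1; omega
      · have := e5 (4 * w - 2) (by omega) (by omega)
        convert this using 1; omega
      · have := e5 (4 * w - 1) (by omega) (by omega)
        convert this using 1; omega

/-- A batch step which completes the triple of `w`. -/
structure New (s s' : Setoid (Fin (NN K))) (w : ℕ) : Prop where
  h1 : 1 ≤ w
  hL : w < LL K
  t' : T3 s' w
  t : ¬ T3 s w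

theorem New.prem {s s' : Setoid (Fin (NN K))} (hs : Inv s)
    (h : ∀ k, k + 1 < MM K → E s' k (k + 1) → E s k (k + 1) ∨ ∀ i, k = 2 * i → Prem s i)
    {w : ℕ} (hw : New s s' w) : Prem s (2 * w - 1) := by
  have hM := MM_eq K
  have := hw.h1
  have := hw.hL
  rcases h (4 * w - 2) (by omega) (by convert hw.t'.2.1 using 1; omega) with h | h
  · apply hs.i4 _ (by omega)
    convert h using 1 <;> omega
  · exact h _ (by omega)

theorem new_unique_aux {s s' : Setoid (Fin (NN K))} (hs : Inv s)
    (h : ∀ k, k + 1 < MM K → E s' k (k + 1) → E s k (k + 1) ∨ ∀ i, k = 2 * i → Prem s i)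
    {w x : ℕ} (hw : New s s' w) (hx : New s s' x) (hlt : w < x) : False := by
  have hw1 := hw.h1
  have hwL := hw.hL
  have hx1 := hx.h1
  have hxL := hx.hL
  obtain ⟨pr, _⟩ := parts hs hw1 hwL (hw.prem hs h)
  obtain ⟨pr', _⟩ := parts hs hx1 hxL (hx.prem hs h)
  have h2 := P2_pos x
  have hev := pr' (4 * x) le_rfl (by omega)
  rcases left_done hs hw1 x hlt hxL hev with h3 | h3
  · apply hx.t
    refine ⟨?_, ?_, ?_⟩
    · have := pr (4 * x - 3) (by omega) (by omega)
      convert this using 1; omega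
    · have := pr (4 * x - 2) (by omega) (by omega)
      convert this using 1; omega
    · have := pr (4 * x - 1) (by omega) (by omega)
      convert this using 1; omega
  · exact hw.t h3

theorem new_unique {s s' : Setoid (Fin (NN K))} (hs : Inv s)
    (h : ∀ k, k + 1 < MM K → E s' k (k + 1) → E s k (k + 1) ∨ ∀ i, k = 2 * i → Prem s i)
    {w x : ℕ} (hw : New s s' w) (hx : New s s' x) : w = x := by
  rcases lt_trichotomy w x with h1 | h1 | h1
  · exact (new_unique_aux hs h hw hx h1).elim
  · exact h1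
  · exact (new_unique_aux hs h hx hw h1).elim

theorem new_updates {f g : Fin (NN K) → ℕ} (hs : Inv (Setoid.ker f))
    (hle : Setoid.ker f ≤ Setoid.ker g)
    (h : ∀ k, k + 1 < MM K → E (Setoid.ker g) k (k + 1) →
      E (Setoid.ker f) k (k + 1) ∨ ∀ i, k = 2 * i → Prem (Setoid.ker f) i)
    {w : ℕ} (hw : New (Setoid.ker f) (Setoid.ker g) w) (hwK : w ≠ 2 ^ K) :
    P2 w ≤ (GG K).updates (RR K) f g := by
  have hM := MM_eq K
  have hL := LL_eq K
  have hpos : 1 ≤ 2 ^ K := Nat.one_le_two_pow
  have hw1 := hw.h1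
  have hwL := hw.hL
  have h1 := P2_le hw1 hwL
  have h2 := P2_pos w
  have h3 := P2_le_self hw1
  have h4 := P2_half hw1 hwL hwK
  obtain ⟨pr, pl'⟩ := parts hs hw1 hwL (hw.prem hs h)
  have hroot : ¬ RootE (Setoid.ker f) := by
    intro hr
    apply hw.t
    refine ⟨?_, ?_, ?_⟩
    · have := half_done hs hr (k := 4 * w - 3) (by omega) (by omega) (by omega)
      convert this using 1; omega
    · have := half_done hs hr (k := 4 * w - 2) (by omega) (by omega) (by omega)
      convert this using 1; omega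
    · have := half_done hs hr (k := 4 * w - 1) (by omega) (by omega) (by omega)
      convert this using 1; omega
  -- the names on both sides
  have hA : ∀ t, w - P2 w ≤ t → t < w → f (fx K (4 * t)) = f (fx K (4 * w - 3)) := by
    intro t ht1 ht2
    exact E.chain (s := Setoid.ker f) (by omega) (fun k hk1 hk2 => pl' k (by omega) hk2)
  have hB : ∀ t, w ≤ t → t < w + P2 w → f (fx K (4 * w)) = f (fx K (4 * t)) := by
    intro t ht1 ht2
    exact E.chain (s := Setoid.ker f) (by omega) (fun k hk1 hk2 => pr k hk1 (by omega))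
  have hne : f (fx K (4 * w - 3)) ≠ f (fx K (4 * w)) := by
    intro he
    have := hs.i1 (4 * w - 3) (4 * w) (by omega) (by omega) he
    apply hw.t
    refine ⟨?_, ?_, ?_⟩
    · have := this (4 * w - 3) (by omega) (by omega)
      convert this using 1; omega
    · have := this (4 * w - 2) (by omega) (by omega)
      convert this using 1; omega
    · have := this (4 * w - 1) (by omega) (by omega)
      convert this using 1; omega
  have hg : g (fx K (4 * w - 3)) = g (fx K (4 * w)) :=
    (hw.t'.1.trans hw.t'.2.1).trans hw.t'.2.2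
  by_cases hx : g (fx K (4 * w)) = f (fx K (4 * w - 3))
  · apply updates_ge hs hroot (a := w) (d := P2 w) (by omega)
    intro t ht1 ht2 he
    have e1 : g (fx K (4 * w)) = g (fx K (4 * t)) := hle (hB t ht1 ht2)
    apply hne
    rw [← hx, e1, he, ← hB t ht1 ht2]
  · apply updates_ge hs hroot (a := w - P2 w) (d := P2 w) (by omega)
    intro t ht1 ht2 he
    have e1 : g (fx K (4 * t)) = g (fx K (4 * w - 3)) := hle (hA t ht1 (by omega))
    apply hx
    rw [← hg, ← e1, he, hA t ht1 (by omega)]

open Classical in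
/-- The potential. -/
noncomputable def Psi (s : Setoid (Fin (NN K))) : ℕ :=
  ∑ w ∈ (Finset.Ico 1 (LL K)).erase (2 ^ K), if T3 s w then P2 w else 0

theorem psi_bot {s : Setoid (Fin (NN K))} (hs : s = ⊥) : Psi s = 0 := by
  subst hs
  unfold Psi
  apply Finset.sum_eq_zero
  intro w hw
  rw [Finset.mem_erase, Finset.mem_Ico] at hw
  rw [if_neg]
  rintro ⟨h, _, _⟩
  have hM := MM_eq K
  have hN := NN_eq K
  have := fx_inj (by omega) (by omega) h
  omega

theorem psi_step {f g : Fin (NN K) → ℕ} (hs : Inv (Setoid.ker f))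
    (hle : Setoid.ker f ≤ Setoid.ker g)
    (h : ∀ k, k + 1 < MM K → E (Setoid.ker g) k (k + 1) →
      E (Setoid.ker f) k (k + 1) ∨ ∀ i, k = 2 * i → Prem (Setoid.ker f) i) :
    Psi (Setoid.ker g) ≤ Psi (Setoid.ker f) + (GG K).updates (RR K) f g := by
  classical
  by_cases hnew : ∃ w ∈ (Finset.Ico 1 (LL K)).erase (2 ^ K),
      New (Setoid.ker f) (Setoid.ker g) w
  · obtain ⟨w0, hw0, hn⟩ := hnew
    have key : ∀ w ∈ (Finset.Ico 1 (LL K)).erase (2 ^ K),
        (if T3 (Setoid.ker g) w then P2 w else 0) ≤ (if T3 (Setoid.ker f) w then P2 w else 0) +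
          (if w = w0 then (GG K).updates (RR K) f g else 0) := by
      intro w hw
      rw [Finset.mem_erase, Finset.mem_Ico] at hw
      by_cases hT : T3 (Setoid.ker g) w
      · rw [if_pos hT]
        by_cases hS : T3 (Setoid.ker f) w
        · rw [if_pos hS]; exact Nat.le_add_right _ _
        · have hnw : New (Setoid.ker f) (Setoid.ker g) w := ⟨hw.2.1, hw.2.2, hT, hS⟩
          have := new_unique hs h hnw hn
          rw [if_neg hS, if_pos this, Nat.zero_add]
          exact new_updates hs hle h hnw hw.1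
      · rw [if_neg hT]; exact Nat.zero_le _
    unfold Psi
    refine (Finset.sum_le_sum key).trans ?_
    rw [Finset.sum_add_distrib]
    apply Nat.add_le_add_left
    rw [Finset.sum_ite_eq', if_pos hw0]
  · refine le_trans ?_ (Nat.le_add_right _ _)
    unfold Psi
    apply Finset.sum_le_sum
    intro w hw
    by_cases hT : T3 (Setoid.ker g) w
    · have : T3 (Setoid.ker f) w := by
        by_contra hS
        have hw' := hw
        rw [Finset.mem_erase, Finset.mem_Ico] at hw'
        exact hnew ⟨w, hw, hw'.2.1, hw'.2.2, hT, hS⟩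
      rw [if_pos hT, if_pos this]
    · rw [if_neg hT]; exact Nat.zero_le _

theorem hist_inv {f : Fin (NN K) → ℕ} {c : ℕ} (h : Hist (GG K) (RR K) f c) :
    Inv (Setoid.ker f) ∧ Psi (Setoid.ker f) ≤ c := by
  induction h with
  | start f hf =>
    have hk : Setoid.ker f = ⊥ := by
      ext a b
      exact ⟨fun h => hf h, fun h => congrArg f h⟩
    rw [hk]
    exact ⟨inv_bot, by rw [psi_bot rfl]⟩
  | @step f c h S hS g hg ih =>
    obtain ⟨hs, hc⟩ := ih
    obtain ⟨h1, h2⟩ := inv_batch hs hS hg
    refine ⟨h1, ?_⟩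
    have := psi_step hs hg.1.1 h2
    omega

theorem P2_add {w : ℕ} (hw : 1 ≤ w) (h : w < LL K) : P2 (LL K + w) = P2 w := by
  obtain ⟨e, b, rfl⟩ := exists_rep (show w ≠ 0 by omega)
  have he : e ≤ K := by
    by_contra hc
    have h1 : LL K ≤ 2 ^ e := Nat.pow_le_pow_right (by norm_num) (by omega)
    have h2 : 2 ^ e * 1 ≤ 2 ^ e * (2 * b + 1) := Nat.mul_le_mul_left _ (by omega)
    omega
  have : LL K + 2 ^ e * (2 * b + 1) = 2 ^ e * (2 * (b + 2 ^ (K - e)) + 1) := by
    have h3 : LL K = 2 ^ e * (2 * 2 ^ (K - e)) := by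
      rw [LL_eq]
      have : 2 ^ K = 2 ^ e * 2 ^ (K - e) := by rw [← pow_add]; congr 1; omega
      rw [this]; ring
    rw [h3]; ring
  rw [this, P2_eq, P2_eq]

theorem sum_P2 (K : ℕ) : ∑ w ∈ Finset.Ico 1 (LL K), P2 w = (K + 1) * 2 ^ K := by
  induction K with
  | zero =>
    have : LL 0 = 2 := rfl
    rw [this]
    simp [P2]
  | succ K ih =>
    have h1 : LL (K + 1) = LL K + LL K := by
      unfold LL; rw [pow_succ]; ring
    have hL := LL_eq K
    have hpos : 1 ≤ 2 ^ K := Nat.one_le_two_pow
    rw [← Finset.sum_Ico_consecutive (fun w => P2 w) (show 1 ≤ LL K by omega)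
      (show LL K ≤ LL (K + 1) by omega), ih]
    rw [Finset.sum_eq_sum_Ico_succ_bot (by omega)]
    have h2 : ∑ w ∈ Finset.Ico (LL K + 1) (LL (K + 1)), P2 w = ∑ w ∈ Finset.Ico 1 (LL K), P2 w := by
      rw [h1, show LL K + 1 = 1 + LL K by ring, ← Finset.sum_Ico_add]
      apply Finset.sum_congr rfl
      intro w hw
      rw [Finset.mem_Ico] at hw
      exact P2_add hw.1 hw.2
    have h3 : P2 (LL K) = 2 * 2 ^ K := by
      rw [← LL_eq]; exact P2_pow (K + 1)
    rw [h2, ih, h3, pow_succ]
    ring

theorem psi_closure : Psi ((GG K).closure (RR K)) = K * 2 ^ K := by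
  classical
  have hM := MM_eq K
  have hL := LL_eq K
  have hpos : 1 ≤ 2 ^ K := Nat.one_le_two_pow
  have h1 : Psi ((GG K).closure (RR K)) = ∑ w ∈ (Finset.Ico 1 (LL K)).erase (2 ^ K), P2 w := by
    unfold Psi
    apply Finset.sum_congr rfl
    intro w hw
    rw [Finset.mem_erase, Finset.mem_Ico] at hw
    rw [if_pos]
    exact ⟨closure_path (by omega) (by omega), closure_path (by omega) (by omega),
      closure_path (by omega) (by omega)⟩
  have h2 := Finset.sum_erase_add (Finset.Ico 1 (LL K)) (fun w => P2 w)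
    (show 2 ^ K ∈ Finset.Ico 1 (LL K) by rw [Finset.mem_Ico]; omega)
  rw [sum_P2, P2_pow] at h2
  rw [h1]
  have : (K + 1) * 2 ^ K = K * 2 ^ K + 2 ^ K := by ring
  omega

/-- Every complete history on the hard instance is expensive. -/
theorem cost_ge {f : Fin (NN K) → ℕ} {c : ℕ} (h : Hist (GG K) (RR K) f c)
    (hf : Setoid.ker f = (GG K).closure (RR K)) : K * 2 ^ K ≤ c := by
  have := (hist_inv h).2
  rw [hf, psi_closure] at this
  exact this

theorem RR_length : (RR K).length = 4 * 2 ^ K - 2 := by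
  have hL := LL_eq K
  unfold RR
  rw [List.length_map, List.length_range]
  omega

theorem out_length (u : Fin (NN K)) :
    ((GG K).out u).length = if u.val / 2 = 0 then 0 else 1 := by
  have hM := MM_eq K
  have hL := LL_pos K
  show ((outN K u.val).map (fx K)).length = _
  rw [List.length_map]
  unfold outN
  split_ifs <;> first | rfl | omega

/-- Number of edges. -/
theorem edges : ∑ u, ((GG K).out u).length = 10 * 2 ^ K - 4 := by
  have hM := MM_eq K
  have hL := LL_eq K
  have hN := NN_eq K
  have hpos : 1 ≤ 2 ^ K := Nat.one_le_two_pow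
  have h1 : ∑ u : Fin (NN K), ((GG K).out u).length =
      ∑ u : Fin (NN K), (if u.val / 2 = 0 then 0 else 1) :=
    Finset.sum_congr rfl (fun u _ => out_length u)
  rw [h1, Fin.sum_univ_eq_sum_range (fun x => if x / 2 = 0 then 0 else 1)]
  have h2 : NN K = 2 + (10 * 2 ^ K - 4) := by omega
  rw [h2, Finset.sum_range_add]
  have h3 : ∀ x ∈ Finset.range (10 * 2 ^ K - 4), (if (2 + x) / 2 = 0 then 0 else 1) = 1 := by
    intro x _
    rw [if_neg (by omega)]
  rw [Finset.sum_congr rfl h3]
  simp [Finset.sum_range_succ]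

theorem label_twice (l : ℕ) :
    (Finset.univ.filter (fun u : Fin (NN K) => (GG K).lab u = l)).card ≤ 2 := by
  classical
  have hM := MM_eq K
  have hL := LL_eq K
  have hN := NN_eq K
  have hpos : 1 ≤ 2 ^ K := Nat.one_le_two_pow
  have hsub : Finset.univ.filter (fun u : Fin (NN K) => (GG K).lab u = l) ⊆
      if l < MM K then {fx K (2 * l), fx K (2 * l + 1)} else {fx K l, fx K (l + 2 ^ K)} := by
    intro u hu
    rw [Finset.mem_filter] at hu
    have hu2 := hu.2
    change labN K u.val = l at hu2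
    unfold labN at hu2
    have hu3 := u.2
    by_cases h : u.val < MM K
    · rw [if_pos h] at hu2
      rw [if_pos (by omega), Finset.mem_insert, Finset.mem_singleton]
      by_cases h' : u.val % 2 = 0
      · left
        exact (fx_self u).symm.trans (congrArg (fx K) (by omega))
      · right
        exact (fx_self u).symm.trans (congrArg (fx K) (by omega))
    · rw [if_neg h] at hu2
      have hmod : (u.val - MM K) % 2 ^ K < 2 ^ K := Nat.mod_lt _ (by omega)
      rw [if_neg (by omega), Finset.mem_insert, Finset.mem_singleton]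
      have hd := Nat.div_add_mod (u.val - MM K) (2 ^ K)
      have hlt : (u.val - MM K) / 2 ^ K < 2 := by
        rw [Nat.div_lt_iff_lt_mul (by omega)]; omega
      have hq : (u.val - MM K) / 2 ^ K = 0 ∨ (u.val - MM K) / 2 ^ K = 1 :=
        Nat.le_one_iff_eq_zero_or_eq_one.1 (Nat.lt_succ_iff.1 hlt)
      rcases hq with hq | hq
      · left
        rw [hq, Nat.mul_zero, Nat.zero_add] at hd
        exact (fx_self u).symm.trans (congrArg (fx K) (by omega))
      · right
        rw [hq, Nat.mul_one] at hd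
        exact (fx_self u).symm.trans (congrArg (fx K) (by omega))
  refine (Finset.card_le_card hsub).trans ?_
  split_ifs
  · exact Finset.card_le_two
  · exact Finset.card_le_two

end Run7.h781.CC
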